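import Pool.Agent.Rec3e.Matching

set_option linter.unusedSectionVars false
set_option linter.deprecated false

namespace Rec3e

open Set TopologicalSpace Filter Topology

lemma homeo_pow_conj {X Y : Type*} [TopologicalSpace X] [TopologicalSpace Y] (h : X ≃ₜ Y)
    (S : Y ≃ₜ Y) (n : ℤ) (x : X) :
    (((h.trans S).trans h.symm) ^ n) x = h.symm ((S ^ n) (h x)) := by
  have key : ∀ n : ℕ, ∀ x : X, (((h.trans S).trans h.symm) ^ n) x = h.symm ((S ^ n) (h x)) := by
    intro n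
    induction n with
    | zero => intro x; simp
    | succ n ih =>
      intro x
      rw [pow_succ, pow_succ]
      show (((h.trans S).trans h.symm) ^ n) (h.symm (S (h x))) = h.symm ((S ^ n) (S (h x)))
      rw [ih]
      simp
  have keyinv : ∀ n : ℕ, ∀ x : X,
      ((((h.trans S).trans h.symm) ^ n)⁻¹) x = h.symm (((S ^ n)⁻¹) (h x)) := by
    intro n x
    apply (((h.trans S).trans h.symm) ^ n).injective
    have e1 : (((h.trans S).trans h.symm) ^ n) (((((h.trans S).trans h.symm) ^ n)⁻¹) x) = x := by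
      show ((((h.trans S).trans h.symm) ^ n) * (((h.trans S).trans h.symm) ^ n)⁻¹) x = x
      rw [mul_inv_cancel]; rfl
    rw [e1, key]
    have e2 : (S ^ n) (((S ^ n)⁻¹) (h x)) = h x := by
      show ((S ^ n) * (S ^ n)⁻¹) (h x) = h x
      rw [mul_inv_cancel]; rfl
    simp
  obtain ⟨m, rfl | rfl⟩ := n.eq_nat_or_neg
  · simpa using key m x
  · simpa using keyinv m x

/-- The assembly of the two sides into the final answer. -/
theorem assemble
    (ht : ∃ (P : Type) (_ : TopologicalSpace P) (_ : CompactSpace P) (_ : T2Space P)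
      (_ : TotallyDisconnectedSpace P) (_ : SecondCountableTopology P) (_ : Nonempty P)
      (T : P ≃ₜ P) (c : P → ℕ) (G : ℕ → Set P), Continuous c ∧
      (∀ U : Set P, IsOpen U → U.Nonempty → ∀ x, ∃ n : ℤ, (T ^ n) x ∈ U) ∧ Monotone G ∧
      (∀ N x, x ∈ G N → ∀ n > N, ¬ (c ((T ^ n) x) = c x ∧ c ((T ^ (2 * n)) x) = c x)) ∧
      Dense (⋃ N, G N) ∧
      (∀ N x, x ∈ G N → ∀ U, IsOpen U → x ∈ U → ∃ x' ∈ G N ∩ U, x' ≠ x))
    (hs : ∃ (Q : Type) (_ : TopologicalSpace Q) (_ : CompactSpace Q) (_ : T2Space Q)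
      (_ : TotallyDisconnectedSpace Q) (_ : SecondCountableTopology Q) (_ : Nonempty Q)
      (S : Q ≃ₜ Q) (c : Q → ℕ) (G : ℕ → Set Q), Continuous c ∧
      (∀ U : Set Q, IsOpen U → U.Nonempty → ∀ x, ∃ n : ℤ, (S ^ n) x ∈ U) ∧ Monotone G ∧
      (∀ N z, z ∈ G N → ∀ n > N, c ((S ^ (n ^ 2)) z) ≠ c z) ∧
      Dense (⋃ N, G N) ∧
      (∀ N x, x ∈ G N → ∀ U, IsOpen U → x ∈ U → ∃ x' ∈ G N ∩ U, x' ≠ x)) :
    ∃ (X : Type) (_ : MetricSpace X) (_ : CompactSpace X) (_ : Nonempty X) (T S : X ≃ₜ X),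
      (∀ x, Dense (range fun n : ℤ => (T ^ n) x)) ∧
      (∀ x, Dense (range fun n : ℤ => (S ^ n) x)) ∧
      ∀ x, ¬ ∃ n : ℕ → ℤ, Tendsto n atTop atTop ∧
        Tendsto (fun i => (T ^ (n i)) x) atTop (𝓝 x) ∧
        Tendsto (fun i => (T ^ (2 * n i)) x) atTop (𝓝 x) ∧
        Tendsto (fun i => (S ^ ((n i) ^ 2)) x) atTop (𝓝 x) := by
  obtain ⟨P, _, _, _, _, _, _, T, c, GP, hc, minT, mP, gP, dP, iP⟩ := ht
  obtain ⟨Q, _, _, _, _, _, _, S, d, GQ, hd, minS, mQ, gQ, dQ, iQ⟩ := hs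
  set al : ℕ → Set P := fun n => {x | c ((T ^ n) x) = c x ∧ c ((T ^ (2 * n)) x) = c x} with hal
  set be : ℕ → Set Q := fun n => {z | d ((S ^ (n ^ 2)) z) = d z} with hbe
  have cal : ∀ n, IsClopen (al n) := by
    intro n
    have e1 : IsClopen {x : P | c ((T ^ n) x) = c x} := by
      have hf : Continuous (fun x => ((c ((T ^ n) x), c x) : ℕ × ℕ)) :=
        (hc.comp (T ^ n).continuous).prodMk hc
      exact (isClopen_discrete {p : ℕ × ℕ | p.1 = p.2}).preimage hf
    have e2 : IsClopen {x : P | c ((T ^ (2 * n)) x) = c x} := by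
      have hf : Continuous (fun x => ((c ((T ^ (2 * n)) x), c x) : ℕ × ℕ)) :=
        (hc.comp (T ^ (2 * n)).continuous).prodMk hc
      exact (isClopen_discrete {p : ℕ × ℕ | p.1 = p.2}).preimage hf
    exact e1.inter e2
  have cbe : ∀ n, IsClopen (be n) := by
    intro n
    have hf : Continuous (fun x => ((d ((S ^ (n ^ 2)) x), d x) : ℕ × ℕ)) :=
      (hd.comp (S ^ (n ^ 2)).continuous).prodMk hd
    exact (isClopen_discrete {p : ℕ × ℕ | p.1 = p.2}).preimage hf
  obtain ⟨N0, h, hh⟩ := matching al be cal cbe GP GQ mP mQ (fun N x hx n hn => gP N x hx n hn)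
    (fun N x hx n hn => gQ N x hx n hn) dP dQ iP iQ
  let _ : MetricSpace P := TopologicalSpace.metrizableSpaceMetric P
  refine ⟨P, inferInstance, inferInstance, inferInstance, T, (h.trans S).trans h.symm, ?_, ?_, ?_⟩
  · intro x
    rw [dense_iff_inter_open]
    intro U hU hne
    obtain ⟨n, hn⟩ := minT U hU hne x
    exact ⟨_, hn, mem_range_self n⟩
  · intro x
    rw [dense_iff_inter_open]
    intro U hU hne
    obtain ⟨n, hn⟩ := minS (h.symm ⁻¹' U) (hU.preimage h.symm.continuous)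
      (by obtain ⟨u, hu⟩ := hne; exact ⟨h u, by simpa using hu⟩) (h x)
    refine ⟨_, ?_, mem_range_self n⟩
    rw [homeo_pow_conj]
    exact hn
  · rintro x ⟨n, hn, h1, h2, h3⟩
    have f1 : ∀ᶠ i in atTop, c ((T ^ (n i)) x) = c x :=
      ((hc.tendsto x).comp h1).eventually ((isOpen_discrete ({c x} : Set ℕ)).eventually_mem rfl)
    have f2 : ∀ᶠ i in atTop, c ((T ^ (2 * n i)) x) = c x :=
      ((hc.tendsto x).comp h2).eventually ((isOpen_discrete ({c x} : Set ℕ)).eventually_mem rfl)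
    have h3' : Tendsto (fun i => (S ^ ((n i) ^ 2)) (h x)) atTop (𝓝 (h x)) := by
      have := (h.continuous.tendsto x).comp h3
      refine this.congr ?_
      intro i
      simp only [Function.comp]
      rw [homeo_pow_conj]
      simp
    have f3 : ∀ᶠ i in atTop, d ((S ^ ((n i) ^ 2)) (h x)) = d (h x) :=
      ((hd.tendsto (h x)).comp h3').eventually
        ((isOpen_discrete ({d (h x)} : Set ℕ)).eventually_mem rfl)
    have f4 : ∀ᶠ i in atTop, (N0 : ℤ) + 1 ≤ n i := hn.eventually_ge_atTop _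
    obtain ⟨i, g1, g2, g3, g4⟩ := (f1.and (f2.and (f3.and f4))).exists
    obtain ⟨m, hm⟩ : ∃ m : ℕ, n i = m := ⟨(n i).toNat, by omega⟩
    rw [hm] at g1 g2 g3 g4
    refine hh x m (by omega) ⟨⟨?_, ?_⟩, ?_⟩
    · simpa using g1
    · have : (2 * (m : ℤ)) = ((2 * m : ℕ) : ℤ) := by push_cast; ring
      rw [this, zpow_natCast] at g2
      exact g2
    · have : ((m : ℤ)) ^ 2 = ((m ^ 2 : ℕ) : ℤ) := by push_cast; ring
      rw [this, zpow_natCast] at g3
      exact g3

end Rec3e
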