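import Mathlib

/-!
# A matching lemma for Cantor-like spaces

Two compact totally disconnected metrizable spaces `P`, `Q` carry sequences of clopen bad sets
`al n ⊆ P` and `be n ⊆ Q`, such that the points avoiding all but finitely many bad sets are dense
(in a strong, perfect sense).  Then there is a homeomorphism `h : P ≃ₜ Q` such that no point `x`
has `x ∈ al n` and `h x ∈ be n` for a large `n`.
-/

set_option linter.unusedSectionVars false
set_option linter.deprecated false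

namespace Rec3e

open Set TopologicalSpace

/-- The data on one side of the matching. -/
structure Side (P : Type*) [TopologicalSpace P] where
  al : ℕ → Set P
  clopen : ∀ n, IsClopen (al n)
  G : ℕ → Set P
  mono : ∀ {M N}, M ≤ N → G M ⊆ G N
  good : ∀ N x, x ∈ G N → ∀ n, N < n → x ∉ al n
  dense : ∀ U : Set P, IsOpen U → U.Nonempty → ∃ N, (U ∩ G N).Nonempty
  noiso : ∀ N x, x ∈ G N → ∀ U : Set P, IsOpen U → x ∈ U → ∃ y ∈ G N, y ∈ U ∧ y ≠ x

section OneSide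

variable {P : Type*} [TopologicalSpace P] [CompactSpace P] [T2Space P] [TotallyDisconnectedSpace P]

lemma Side.infinite (s : Side P) {N : ℕ} {U : Set P} (hU : IsOpen U)
    (hne : (U ∩ s.G N).Nonempty) : (U ∩ s.G N).Infinite := by
  intro hfin
  obtain ⟨x, hxU, hxG⟩ := hne
  have hfin' : ((U ∩ s.G N) \ {x}).Finite := hfin.subset diff_subset
  have hV : IsOpen (U \ ((U ∩ s.G N) \ {x})) := hU.sdiff hfin'.isClosed
  obtain ⟨y, hyG, hyV, hyx⟩ := s.noiso N x hxG _ hV ⟨hxU, fun h => h.2 rfl⟩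
  exact hyV.2 ⟨⟨hyV.1, hyG⟩, hyx⟩

lemma exists_clopen_nhd {x : P} {U : Set P} (hU : IsOpen U) (hx : x ∈ U) :
    ∃ V : Set P, IsClopen V ∧ x ∈ V ∧ V ⊆ U := by
  obtain ⟨V, hV, hxV, hVU⟩ := compact_exists_isClopen_in_isOpen hU hx
  exact ⟨V, hV, hxV, hVU⟩

/-- piece number `l` of `A` cut along `c`. -/
def cut (A c : Set P) (l : Bool) : Set P := if l then A ∩ c else A \ c

lemma cut_clopen {A c : Set P} (hA : IsClopen A) (hc : IsClopen c) (l : Bool) :
    IsClopen (cut A c l) := by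
  unfold cut; split_ifs
  · exact hA.inter hc
  · exact hA.diff hc

lemma cut_subset (A c : Set P) (l : Bool) : cut A c l ⊆ A := by
  unfold cut; split_ifs
  · exact inter_subset_left
  · exact diff_subset

lemma cut_sep (A c : Set P) (l : Bool) : cut A c l ⊆ c ∨ cut A c l ⊆ cᶜ := by
  unfold cut; split_ifs
  · left; exact inter_subset_right
  · right; exact fun x hx => hx.2

lemma exists_cut {A c : Set P} {x : P} (hx : x ∈ A) : ∃ l, x ∈ cut A c l := by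
  by_cases h : x ∈ c
  · exact ⟨true, by simp [cut, hx, h]⟩
  · exact ⟨false, by simp [cut, hx, h]⟩

lemma cut_unique {A c : Set P} {x : P} {l l' : Bool} (h : x ∈ cut A c l) (h' : x ∈ cut A c l') :
    l = l' := by
  cases l <;> cases l' <;> simp_all [cut]

/-- choose small clopen sets around two distinct good points. -/
lemma Side.small (s : Side P) {A c : Set P} (hA : IsClopen A) (hc : IsClopen c) {N : ℕ}
    (hne : (A ∩ s.G N).Nonempty) (Y : Set P) (hY : Y.Finite) :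
    ∃ e : Bool → P, (∀ l, e l ∈ A) ∧ (∀ l, e l ∈ s.G N) ∧ ∀ N', ∃ E : Bool → Set P,
      (∀ l, IsClopen (E l)) ∧ (∀ l, e l ∈ E l) ∧ (∀ l, E l ⊆ A) ∧
      (∀ l, E l ⊆ c ∨ E l ⊆ cᶜ) ∧ (∀ l, ∀ y ∈ Y, y ∉ E l) ∧
      (∀ l n, N < n → n ≤ N' → ∀ x ∈ E l, x ∉ s.al n) ∧
      (∀ l l' x, x ∈ E l → x ∈ E l' → l = l') := by
  have hinf := s.infinite hA.isOpen hne
  obtain ⟨e0, he0, he0'⟩ := (hinf.diff hY).nonempty
  obtain ⟨e1, he1, he1'⟩ := (hinf.diff (hY.insert e0)).nonempty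
  have hne01 : e1 ≠ e0 := fun h => he1' (h ▸ mem_insert _ _)
  have he1Y : e1 ∉ Y := fun h => he1' (mem_insert_of_mem _ h)
  obtain ⟨D, hD, h1D, h0D⟩ := exists_isClopen_of_totally_separated hne01
  refine ⟨fun l => if l then e1 else e0, ?_, ?_, ?_⟩
  · intro l; cases l <;> simp [he0.1, he1.1]
  · intro l; cases l <;> simp [he0.2, he1.2]
  intro N'
  have key : ∀ x, x ∈ A → x ∈ s.G N → x ∉ Y → ∀ D' : Set P, IsClopen D' → x ∈ D' →
      ∃ V : Set P, IsClopen V ∧ x ∈ V ∧ V ⊆ A ∧ (V ⊆ c ∨ V ⊆ cᶜ) ∧ (∀ y ∈ Y, y ∉ V) ∧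
        (∀ n, N < n → n ≤ N' → ∀ z ∈ V, z ∉ s.al n) ∧ V ⊆ D' := by
    intro x hxA hxG hxY D' hD' hxD'
    obtain ⟨l, hl⟩ := exists_cut (c := c) hxA
    have hopen : IsOpen (cut A c l ∩ D' ∩ Yᶜ ∩ ⋂ n ∈ Finset.Ioc N N', (s.al n)ᶜ) := by
      refine (((cut_clopen hA hc l).isOpen.inter hD'.isOpen).inter hY.isClosed.isOpen_compl).inter ?_
      refine isOpen_biInter_finset ?_
      intro n _
      exact (s.clopen n).compl.isOpen
    have hmem : x ∈ (cut A c l ∩ D' ∩ Yᶜ ∩ ⋂ n ∈ Finset.Ioc N N', (s.al n)ᶜ) := by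
      refine ⟨⟨⟨hl, hxD'⟩, hxY⟩, ?_⟩
      simp only [mem_iInter]
      intro n hn
      exact s.good N x hxG n (Finset.mem_Ioc.1 hn).1
    obtain ⟨V, hV, hxV, hVU⟩ := exists_clopen_nhd hopen hmem
    refine ⟨V, hV, hxV, fun z hz => cut_subset _ _ _ (hVU hz).1.1.1, ?_, ?_, ?_, ?_⟩
    · rcases cut_sep A c l with h | h
      · left; exact fun z hz => h (hVU hz).1.1.1
      · right; exact fun z hz => h (hVU hz).1.1.1
    · intro y hy hyV
      exact (hVU hyV).1.2 hy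
    · intro n h1 h2 z hz
      have := (hVU hz).2
      simp only [mem_iInter] at this
      exact this n (Finset.mem_Ioc.2 ⟨h1, h2⟩)
    · exact fun z hz => (hVU hz).1.1.2
  obtain ⟨V1, a1, a2, a3, a4, a5, a6, a7⟩ := key e1 he1.1 he1.2 he1Y D hD h1D
  obtain ⟨V0, b1, b2, b3, b4, b5, b6, b7⟩ := key e0 he0.1 he0.2 he0' Dᶜ hD.compl h0D
  refine ⟨fun l => if l then V1 else V0, ?_, ?_, ?_, ?_, ?_, ?_, ?_⟩
  · intro l; cases l <;> simp [a1, b1]
  · intro l; cases l <;> simp [a2, b2]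
  · intro l; cases l <;> simp [a3, b3]
  · intro l; cases l
    · simpa using b4
    · simpa using a4
  · intro l; cases l
    · simpa using b5
    · simpa using a5
  · intro l; cases l
    · simpa using b6
    · simpa using a6
  · intro l l' x h h'
    cases l <;> cases l' <;> simp only [Bool.false_eq_true, if_false, if_true] at h h' <;>
      first | rfl | exact absurd (a7 h') (b7 h) | exact absurd (a7 h) (b7 h')

/-- good points in each nonempty piece. -/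
lemma Side.points [Nonempty P] (s : Side P) {A c : Set P} (hA : IsClopen A) (hc : IsClopen c) :
    ∃ (y : Bool → P) (M : ℕ), ∀ l, (cut A c l).Nonempty → y l ∈ cut A c l ∧ y l ∈ s.G M := by
  have h1 : ∀ l, ∃ (y : P) (M : ℕ), (cut A c l).Nonempty → y ∈ cut A c l ∧ y ∈ s.G M := by
    intro l
    by_cases h : (cut A c l).Nonempty
    · obtain ⟨M, y, hy⟩ := s.dense _ (cut_clopen hA hc l).isOpen h
      exact ⟨y, M, fun _ => hy⟩
    · exact ⟨Classical.arbitrary P, 0, fun h' => absurd h' h⟩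
  choose y M hyM using h1
  refine ⟨y, max (M true) (M false), ?_⟩
  intro l hl
  refine ⟨(hyM l hl).1, s.mono ?_ (hyM l hl).2⟩
  cases l
  · exact le_max_right _ _
  · exact le_max_left _ _

end OneSide

section TwoSides

variable {P Q : Type*} [TopologicalSpace P] [CompactSpace P] [T2Space P]
  [TotallyDisconnectedSpace P] [Nonempty P]
  [TopologicalSpace Q] [CompactSpace Q] [T2Space Q] [TotallyDisconnectedSpace Q] [Nonempty Q]

/-- A matched pair of clopen sets, at level `N`. -/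
structure Ok (s : Side P) (t : Side Q) (N0 N : ℕ) (p : Set P × Set Q) : Prop where
  c1 : IsClopen p.1
  c2 : IsClopen p.2
  g1 : (p.1 ∩ s.G N).Nonempty
  g2 : (p.2 ∩ t.G N).Nonempty
  handled : ∀ n, N0 < n → n ≤ N → (∀ x ∈ p.1, x ∉ s.al n) ∨ (∀ y ∈ p.2, y ∉ t.al n)

/-- children of a pair -/
structure Children (s : Side P) (t : Side Q) (N0 N' : ℕ) (c : Set P) (d : Set Q)
    (p : Set P × Set Q) (C : Set (Set P × Set Q)) : Prop where
  fin : C.Finite
  ok : ∀ q ∈ C, Ok s t N0 N' q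
  sub1 : ∀ q ∈ C, q.1 ⊆ p.1
  sub2 : ∀ q ∈ C, q.2 ⊆ p.2
  sep1 : ∀ q ∈ C, q.1 ⊆ c ∨ q.1 ⊆ cᶜ
  sep2 : ∀ q ∈ C, q.2 ⊆ d ∨ q.2 ⊆ dᶜ
  cov1 : ∀ x ∈ p.1, ∃ q ∈ C, x ∈ q.1
  cov2 : ∀ y ∈ p.2, ∃ q ∈ C, y ∈ q.2
  uni1 : ∀ q ∈ C, ∀ q' ∈ C, ∀ x, x ∈ q.1 → x ∈ q'.1 → q = q'
  uni2 : ∀ q ∈ C, ∀ q' ∈ C, ∀ y, y ∈ q.2 → y ∈ q'.2 → q = q'

lemma exists_children (s : Side P) (t : Side Q) {N0 N : ℕ} (c : Set P) (hc : IsClopen c)
    (d : Set Q) (hd : IsClopen d) {p : Set P × Set Q} (hp : Ok s t N0 N p) :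
    ∃ M, ∀ N', M ≤ N' → N ≤ N' → ∃ C, Children s t N0 N' c d p C := by
  obtain ⟨A, B⟩ := p
  obtain ⟨hA, hB, gA, gB, hh⟩ := hp
  simp only at hA hB gA gB hh
  obtain ⟨y, M1, hy⟩ := s.points hA hc
  obtain ⟨z, M2, hz⟩ := t.points hB hd
  obtain ⟨e, heA, heG, hE⟩ := s.small hA hc gA (range y) (finite_range y)
  obtain ⟨f, hfB, hfG, hF⟩ := t.small hB hd gB (range z) (finite_range z)
  refine ⟨max M1 M2, ?_⟩
  intro N' hN' hNN'
  have hM1 : M1 ≤ N' := (le_max_left _ _).trans hN'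
  have hM2 : M2 ≤ N' := (le_max_right _ _).trans hN'
  obtain ⟨E, E1, E2, E3, E4, E5, E6, E7⟩ := hE N'
  obtain ⟨F, F1, F2, F3, F4, F5, F6, F7⟩ := hF N'
  -- unions of the used small sets
  set EU : Set P := ⋃ l ∈ {l : Bool | (cut B d l).Nonempty}, E l with hEU
  set FU : Set Q := ⋃ l ∈ {l : Bool | (cut A c l).Nonempty}, F l with hFU
  have hEUc : IsClopen EU := (Set.toFinite _).isClopen_biUnion (fun l _ => E1 l)
  have hFUc : IsClopen FU := (Set.toFinite _).isClopen_biUnion (fun l _ => F1 l)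
  have mEU : ∀ x, x ∈ EU ↔ ∃ l, (cut B d l).Nonempty ∧ x ∈ E l := by
    intro x; simp [hEU]
  have mFU : ∀ x, x ∈ FU ↔ ∃ l, (cut A c l).Nonempty ∧ x ∈ F l := by
    intro x; simp [hFU]
  let C1 : Set (Set P × Set Q) :=
    (fun l => (cut A c l \ EU, F l)) '' {l : Bool | (cut A c l).Nonempty}
  let C2 : Set (Set P × Set Q) :=
    (fun l => (E l, cut B d l \ FU)) '' {l : Bool | (cut B d l).Nonempty}
  refine ⟨C1 ∪ C2, ?_, ?_, ?_, ?_, ?_, ?_, ?_, ?_, ?_, ?_⟩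
  · exact ((Set.toFinite _).image _).union ((Set.toFinite _).image _)
  · rintro q (⟨l, hl, rfl⟩ | ⟨l, hl, rfl⟩)
    · refine ⟨(cut_clopen hA hc l).diff hEUc, F1 l, ?_, ?_, ?_⟩
      · refine ⟨y l, ⟨(hy l hl).1, ?_⟩, s.mono hM1 (hy l hl).2⟩
        intro h
        obtain ⟨l', _, h'⟩ := (mEU _).1 h
        exact E5 l' _ (mem_range_self l) h'
      · exact ⟨f l, F2 l, t.mono hNN' (hfG l)⟩
      · intro n h1 h2
        rcases le_or_gt n N with h | h
        · rcases hh n h1 h with h' | h'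
          · left; exact fun x hx => h' x (cut_subset _ _ _ hx.1)
          · right; exact fun x hx => h' x (F3 l hx)
        · right; exact F6 l n h h2
    · refine ⟨E1 l, (cut_clopen hB hd l).diff hFUc, ?_, ?_, ?_⟩
      · exact ⟨e l, E2 l, s.mono hNN' (heG l)⟩
      · refine ⟨z l, ⟨(hz l hl).1, ?_⟩, t.mono hM2 (hz l hl).2⟩
        intro h
        obtain ⟨l', _, h'⟩ := (mFU _).1 h
        exact F5 l' _ (mem_range_self l) h'
      · intro n h1 h2
        rcases le_or_gt n N with h | h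
        · rcases hh n h1 h with h' | h'
          · left; exact fun x hx => h' x (E3 l hx)
          · right; exact fun x hx => h' x (cut_subset _ _ _ hx.1)
        · left; exact E6 l n h h2
  · rintro q (⟨l, hl, rfl⟩ | ⟨l, hl, rfl⟩)
    · exact fun x hx => cut_subset _ _ _ hx.1
    · exact E3 l
  · rintro q (⟨l, hl, rfl⟩ | ⟨l, hl, rfl⟩)
    · exact F3 l
    · exact fun x hx => cut_subset _ _ _ hx.1
  · rintro q (⟨l, hl, rfl⟩ | ⟨l, hl, rfl⟩)
    · rcases cut_sep A c l with h | h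
      · left; exact fun x hx => h hx.1
      · right; exact fun x hx => h hx.1
    · exact E4 l
  · rintro q (⟨l, hl, rfl⟩ | ⟨l, hl, rfl⟩)
    · exact F4 l
    · rcases cut_sep B d l with h | h
      · left; exact fun x hx => h hx.1
      · right; exact fun x hx => h hx.1
  · intro x hx
    by_cases hxE : x ∈ EU
    · obtain ⟨l, hl, hxl⟩ := (mEU _).1 hxE
      exact ⟨_, Or.inr ⟨l, hl, rfl⟩, hxl⟩
    · obtain ⟨l, hl⟩ := exists_cut (c := c) hx
      exact ⟨_, Or.inl ⟨l, ⟨x, hl⟩, rfl⟩, hl, hxE⟩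
  · intro x hx
    by_cases hxE : x ∈ FU
    · obtain ⟨l, hl, hxl⟩ := (mFU _).1 hxE
      exact ⟨_, Or.inl ⟨l, hl, rfl⟩, hxl⟩
    · obtain ⟨l, hl⟩ := exists_cut (c := d) hx
      exact ⟨_, Or.inr ⟨l, ⟨x, hl⟩, rfl⟩, hl, hxE⟩
  · rintro q (⟨l, hl, rfl⟩ | ⟨l, hl, rfl⟩) q' (⟨l', hl', rfl⟩ | ⟨l', hl', rfl⟩) x hx hx'
    · rw [cut_unique hx.1 hx'.1]
    · exact absurd ((mEU x).2 ⟨l', hl', hx'⟩) hx.2
    · exact absurd ((mEU x).2 ⟨l, hl, hx⟩) hx'.2
    · rw [E7 l l' x hx hx']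
  · rintro q (⟨l, hl, rfl⟩ | ⟨l, hl, rfl⟩) q' (⟨l', hl', rfl⟩ | ⟨l', hl', rfl⟩) x hx hx'
    · rw [F7 l l' x hx hx']
    · exact absurd ((mFU x).2 ⟨l, hl, hx⟩) hx'.2
    · exact absurd ((mFU x).2 ⟨l', hl', hx'⟩) hx.2
    · rw [cut_unique hx.1 hx'.1]

/-- a stage of the construction -/
structure Stage (s : Side P) (t : Side Q) (N0 : ℕ) where
  N : ℕ
  C : Set (Set P × Set Q)
  fin : C.Finite
  ok : ∀ q ∈ C, Ok s t N0 N q
  cov1 : ∀ x : P, ∃ q ∈ C, x ∈ q.1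
  cov2 : ∀ y : Q, ∃ q ∈ C, y ∈ q.2
  uni1 : ∀ q ∈ C, ∀ q' ∈ C, ∀ x, x ∈ q.1 → x ∈ q'.1 → q = q'
  uni2 : ∀ q ∈ C, ∀ q' ∈ C, ∀ y, y ∈ q.2 → y ∈ q'.2 → q = q'

/-- refinement of stages -/
structure Refines {s : Side P} {t : Side Q} {N0 : ℕ} (c : Set P) (d : Set Q)
    (S S' : Stage s t N0) : Prop where
  lt : S.N < S'.N
  sub : ∀ q ∈ S'.C, ∃ p ∈ S.C, q.1 ⊆ p.1 ∧ q.2 ⊆ p.2
  sep1 : ∀ q ∈ S'.C, q.1 ⊆ c ∨ q.1 ⊆ cᶜ
  sep2 : ∀ q ∈ S'.C, q.2 ⊆ d ∨ q.2 ⊆ dᶜ

lemma exists_refine {s : Side P} {t : Side Q} {N0 : ℕ} (S : Stage s t N0) (c : Set P)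
    (hc : IsClopen c) (d : Set Q) (hd : IsClopen d) : ∃ S' : Stage s t N0, Refines c d S S' := by
  have h1 : ∀ p : Set P × Set Q, ∃ M, p ∈ S.C → ∀ N', M ≤ N' → S.N ≤ N' →
      ∃ C, Children s t N0 N' c d p C := by
    intro p
    by_cases hp : p ∈ S.C
    · obtain ⟨M, hM⟩ := exists_children s t c hc d hd (S.ok p hp)
      exact ⟨M, fun _ => hM⟩
    · exact ⟨0, fun h => absurd h hp⟩
  choose M hM using h1
  obtain ⟨B, hB⟩ := (S.fin.image M).bddAbove
  set N' := max B (S.N + 1) with hN'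
  have h2 : ∀ p ∈ S.C, ∃ C, Children s t N0 N' c d p C := by
    intro p hp
    refine hM p hp N' ?_ ?_
    · exact (hB (mem_image_of_mem _ hp)).trans (le_max_left _ _)
    · exact (Nat.le_succ _).trans (le_max_right _ _)
  choose! K hK using h2
  refine ⟨⟨N', ⋃ p ∈ S.C, K p, ?_, ?_, ?_, ?_, ?_, ?_⟩, ?_, ?_, ?_, ?_⟩
  · exact S.fin.biUnion (fun p hp => (hK p hp).fin)
  · intro q hq
    simp only [mem_iUnion] at hq
    obtain ⟨p, hp, hq⟩ := hq
    exact (hK p hp).ok q hq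
  · intro x
    obtain ⟨p, hp, hx⟩ := S.cov1 x
    obtain ⟨q, hq, hxq⟩ := (hK p hp).cov1 x hx
    exact ⟨q, by simp only [mem_iUnion]; exact ⟨p, hp, hq⟩, hxq⟩
  · intro x
    obtain ⟨p, hp, hx⟩ := S.cov2 x
    obtain ⟨q, hq, hxq⟩ := (hK p hp).cov2 x hx
    exact ⟨q, by simp only [mem_iUnion]; exact ⟨p, hp, hq⟩, hxq⟩
  · intro q hq q' hq' x hx hx'
    simp only [mem_iUnion] at hq hq'
    obtain ⟨p, hp, hq⟩ := hq
    obtain ⟨p', hp', hq'⟩ := hq'
    have hpp : p = p' := S.uni1 p hp p' hp' x ((hK p hp).sub1 q hq hx) ((hK p' hp').sub1 q' hq' hx')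
    subst hpp
    exact (hK p hp).uni1 q hq q' hq' x hx hx'
  · intro q hq q' hq' x hx hx'
    simp only [mem_iUnion] at hq hq'
    obtain ⟨p, hp, hq⟩ := hq
    obtain ⟨p', hp', hq'⟩ := hq'
    have hpp : p = p' := S.uni2 p hp p' hp' x ((hK p hp).sub2 q hq hx) ((hK p' hp').sub2 q' hq' hx')
    subst hpp
    exact (hK p hp).uni2 q hq q' hq' x hx hx'
  · exact lt_of_lt_of_le (Nat.lt_succ_self _) (le_max_right _ _)
  · intro q hq
    simp only [mem_iUnion] at hq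
    obtain ⟨p, hp, hq⟩ := hq
    exact ⟨p, hp, (hK p hp).sub1 q hq, (hK p hp).sub2 q hq⟩
  · intro q hq
    simp only [mem_iUnion] at hq
    obtain ⟨p, hp, hq⟩ := hq
    exact (hK p hp).sep1 q hq
  · intro q hq
    simp only [mem_iUnion] at hq
    obtain ⟨p, hp, hq⟩ := hq
    exact (hK p hp).sep2 q hq

end TwoSides

section Final

variable {P Q : Type*} [TopologicalSpace P] [CompactSpace P] [T2Space P]
  [TotallyDisconnectedSpace P] [SecondCountableTopology P] [Nonempty P]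
  [TopologicalSpace Q] [CompactSpace Q] [T2Space Q] [TotallyDisconnectedSpace Q]
  [SecondCountableTopology Q] [Nonempty Q]

lemma exists_clopen_seq (P : Type*) [TopologicalSpace P] [CompactSpace P] [T2Space P]
    [TotallyDisconnectedSpace P] [SecondCountableTopology P] :
    ∃ c : ℕ → Set P, (∀ n, IsClopen (c n)) ∧ ∀ U, IsClopen U → ∃ n, c n = U := by
  have : Countable (Clopens P) := Clopens.countable_iff_secondCountable.2 inferInstance
  obtain ⟨f, hf⟩ := exists_surjective_nat (Clopens P)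
  refine ⟨fun n => (f n : Set P), fun n => (f n).isClopen, ?_⟩
  intro U hU
  obtain ⟨n, hn⟩ := hf ⟨U, hU⟩
  exact ⟨n, by show ((f n : Clopens P) : Set P) = U; rw [hn]; rfl⟩

theorem matching_side (s : Side P) (t : Side Q) :
    ∃ N0, ∃ h : P ≃ₜ Q, ∀ x, ∀ n, N0 < n → ¬ (x ∈ s.al n ∧ h x ∈ t.al n) := by
  obtain ⟨N1, x1, hx1⟩ := s.dense univ isOpen_univ univ_nonempty
  obtain ⟨N2, x2, hx2⟩ := t.dense univ isOpen_univ univ_nonempty
  set N0 := max N1 N2 with hN0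
  refine ⟨N0, ?_⟩
  obtain ⟨c, hc, hcU⟩ := exists_clopen_seq P
  obtain ⟨d, hd, hdU⟩ := exists_clopen_seq Q
  let S0 : Stage s t N0 :=
    { N := N0
      C := {(univ, univ)}
      fin := finite_singleton _
      ok := by
        rintro q rfl
        exact ⟨isClopen_univ, isClopen_univ, ⟨x1, mem_univ _, s.mono (le_max_left _ _) hx1.2⟩,
          ⟨x2, mem_univ _, t.mono (le_max_right _ _) hx2.2⟩, fun n h1 h2 => absurd h1 (not_lt.2 h2)⟩
      cov1 := fun x => ⟨_, rfl, mem_univ _⟩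
      cov2 := fun x => ⟨_, rfl, mem_univ _⟩
      uni1 := by rintro q rfl q' rfl _ _ _; rfl
      uni2 := by rintro q rfl q' rfl _ _ _; rfl }
  let nxt : ℕ → Stage s t N0 → Stage s t N0 := fun n S =>
    (exists_refine S (c n) (hc n) (d n) (hd n)).choose
  have hnxt : ∀ n S, Refines (c n) (d n) S (nxt n S) := fun n S =>
    (exists_refine S (c n) (hc n) (d n) (hd n)).choose_spec
  let St : ℕ → Stage s t N0 := fun n => Nat.rec S0 nxt n
  have hSt : ∀ n, Refines (c n) (d n) (St n) (St (n + 1)) := fun n => hnxt n _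
  have hNge : ∀ n, N0 + n ≤ (St n).N := by
    intro n
    induction n with
    | zero => exact le_refl _
    | succ n ih => have := (hSt n).lt; omega
  -- the unique pair containing a point at each stage
  choose q1 hq1C hq1 using fun n x => (St n).cov1 x
  choose q2 hq2C hq2 using fun n y => (St n).cov2 y
  have nest1 : ∀ n x, (q1 (n + 1) x).2 ⊆ (q1 n x).2 := by
    intro n x
    obtain ⟨p, hp, hp1, hp2⟩ := (hSt n).sub _ (hq1C (n + 1) x)
    have : p = q1 n x := (St n).uni1 _ hp _ (hq1C n x) x (hp1 (hq1 (n + 1) x)) (hq1 n x)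
    rw [← this]; exact hp2
  have nest2 : ∀ n y, (q2 (n + 1) y).1 ⊆ (q2 n y).1 := by
    intro n y
    obtain ⟨p, hp, hp1, hp2⟩ := (hSt n).sub _ (hq2C (n + 1) y)
    have : p = q2 n y := (St n).uni2 _ hp _ (hq2C n y) y (hp2 (hq2 (n + 1) y)) (hq2 n y)
    rw [← this]; exact hp1
  have ex1 : ∀ x, ∃ y, ∀ n, y ∈ (q1 n x).2 := by
    intro x
    have := IsCompact.nonempty_iInter_of_sequence_nonempty_isCompact_isClosed
      (fun n => (q1 n x).2) (fun n => nest1 n x)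
      (fun n => ((St n).ok _ (hq1C n x)).g2.mono inter_subset_left)
      (((St 0).ok _ (hq1C 0 x)).c2.isClosed.isCompact)
      (fun n => ((St n).ok _ (hq1C n x)).c2.isClosed)
    obtain ⟨y, hy⟩ := this
    exact ⟨y, fun n => mem_iInter.1 hy n⟩
  have ex2 : ∀ y, ∃ x, ∀ n, x ∈ (q2 n y).1 := by
    intro y
    have := IsCompact.nonempty_iInter_of_sequence_nonempty_isCompact_isClosed
      (fun n => (q2 n y).1) (fun n => nest2 n y)
      (fun n => ((St n).ok _ (hq2C n y)).g1.mono inter_subset_left)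
      (((St 0).ok _ (hq2C 0 y)).c1.isClosed.isCompact)
      (fun n => ((St n).ok _ (hq2C n y)).c1.isClosed)
    obtain ⟨x, hx⟩ := this
    exact ⟨x, fun n => mem_iInter.1 hx n⟩
  choose φ hφ using ex1
  choose ψ hψ using ex2
  -- uniqueness
  have sepQ : ∀ y y' : Q, (∀ n, ∃ q ∈ (St n).C, y ∈ q.2 ∧ y' ∈ q.2) → y = y' := by
    intro y y' h
    by_contra hne
    obtain ⟨D, hD, h1, h2⟩ := exists_isClopen_of_totally_separated hne
    obtain ⟨n, hn⟩ := hdU D hD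
    obtain ⟨q, hq, ha, hb⟩ := h (n + 1)
    rcases (hSt n).sep2 q hq with hs | hs
    · exact h2 (hn ▸ hs hb)
    · exact (hs ha) (hn.symm ▸ h1)
  have sepP : ∀ y y' : P, (∀ n, ∃ q ∈ (St n).C, y ∈ q.1 ∧ y' ∈ q.1) → y = y' := by
    intro y y' h
    by_contra hne
    obtain ⟨D, hD, h1, h2⟩ := exists_isClopen_of_totally_separated hne
    obtain ⟨n, hn⟩ := hcU D hD
    obtain ⟨q, hq, ha, hb⟩ := h (n + 1)
    rcases (hSt n).sep1 q hq with hs | hs
    · exact h2 (hn ▸ hs hb)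
    · exact (hs ha) (hn.symm ▸ h1)
  have hφq : ∀ x n, q2 n (φ x) = q1 n x := fun x n =>
    (St n).uni2 _ (hq2C n _) _ (hq1C n x) (φ x) (hq2 n _) (hφ x n)
  have hψq : ∀ y n, q1 n (ψ y) = q2 n y := fun y n =>
    (St n).uni1 _ (hq1C n _) _ (hq2C n y) (ψ y) (hq1 n _) (hψ y n)
  have left : ∀ x, ψ (φ x) = x := by
    intro x
    refine sepP _ _ (fun n => ⟨q1 n x, hq1C n x, ?_, hq1 n x⟩)
    have := hψ (φ x) n
    rwa [hφq] at this
  have right : ∀ y, φ (ψ y) = y := by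
    intro y
    refine sepQ _ _ (fun n => ⟨q2 n y, hq2C n y, ?_, hq2 n y⟩)
    have := hφ (ψ y) n
    rwa [hψq] at this
  have cont : Continuous φ := by
    refine (isTopologicalBasis_isClopen (X := Q)).continuous_iff.2 ?_
    intro D hD
    obtain ⟨n, hn⟩ := hdU D hD
    have : φ ⁻¹' D = ⋃ q ∈ {q ∈ (St (n + 1)).C | q.2 ⊆ D}, q.1 := by
      ext x
      simp only [mem_preimage, mem_iUnion, mem_setOf_eq, exists_prop]
      constructor
      · intro hx
        refine ⟨q1 (n + 1) x, ⟨hq1C (n + 1) x, ?_⟩, hq1 (n + 1) x⟩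
        rcases (hSt n).sep2 _ (hq1C (n + 1) x) with hs | hs
        · rw [hn] at hs; exact hs
        · exact absurd hx (by rw [← hn]; exact hs (hφ x (n + 1)))
      · rintro ⟨q, ⟨hq, hqD⟩, hx⟩
        have : q = q1 (n + 1) x := (St (n + 1)).uni1 _ hq _ (hq1C (n + 1) x) x hx (hq1 (n + 1) x)
        rw [this] at hqD
        exact hqD (hφ x (n + 1))
    rw [this]
    refine isOpen_biUnion ?_
    rintro q ⟨hq, _⟩
    exact ((St (n + 1)).ok q hq).c1.isOpen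
  let e : P ≃ Q := ⟨φ, ψ, left, right⟩
  refine ⟨Continuous.homeoOfEquivCompactToT2 (f := e) cont, ?_⟩
  rintro x n hn ⟨ha, hb⟩
  have hb' : φ x ∈ t.al n := hb
  have hle : n ≤ (St n).N := by have := hNge n; omega
  rcases ((St n).ok _ (hq1C n x)).handled n hn hle with h | h
  · exact h x (hq1 n x) ha
  · exact h _ (hφ x n) hb'

/-- **Matching lemma.** -/
theorem matching (al : ℕ → Set P) (be : ℕ → Set Q) (hal : ∀ n, IsClopen (al n))
    (hbe : ∀ n, IsClopen (be n)) (GP : ℕ → Set P) (GQ : ℕ → Set Q) (mP : Monotone GP)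
    (mQ : Monotone GQ) (hGP : ∀ N x, x ∈ GP N → ∀ n, N < n → x ∉ al n)
    (hGQ : ∀ N x, x ∈ GQ N → ∀ n, N < n → x ∉ be n)
    (dP : Dense (⋃ N, GP N)) (dQ : Dense (⋃ N, GQ N))
    (iP : ∀ N x, x ∈ GP N → ∀ U : Set P, IsOpen U → x ∈ U → ∃ x' ∈ GP N ∩ U, x' ≠ x)
    (iQ : ∀ N x, x ∈ GQ N → ∀ U : Set Q, IsOpen U → x ∈ U → ∃ x' ∈ GQ N ∩ U, x' ≠ x) :
    ∃ N0, ∃ h : P ≃ₜ Q, ∀ x, ∀ n, N0 < n → ¬ (x ∈ al n ∧ h x ∈ be n) := by
  refine matching_side (⟨al, hal, GP, fun h => mP h, hGP, ?_, ?_⟩ : Side P)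
    (⟨be, hbe, GQ, fun h => mQ h, hGQ, ?_, ?_⟩ : Side Q)
  · intro U hU hne
    obtain ⟨x, hxU, hx⟩ := dP.inter_open_nonempty U hU hne
    obtain ⟨N, hN⟩ := mem_iUnion.1 hx
    exact ⟨N, x, hxU, hN⟩
  · intro N x hx U hU hxU
    obtain ⟨y, hy, hyx⟩ := iP N x hx U hU hxU
    exact ⟨y, hy.1, hy.2, hyx⟩
  · intro U hU hne
    obtain ⟨x, hxU, hx⟩ := dQ.inter_open_nonempty U hU hne
    obtain ⟨N, hN⟩ := mem_iUnion.1 hx
    exact ⟨N, x, hxU, hN⟩
  · intro N x hx U hU hxU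
    obtain ⟨y, hy, hyx⟩ := iQ N x hx U hU hxU
    exact ⟨y, hy.1, hy.2, hyx⟩

end Final

end Rec3e
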