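import Mathlib

/-!
# The `S`-side: a flexible minimal subshift avoiding its zeroth letter along the squares
-/

set_option linter.unusedSectionVars false
set_option linter.deprecated false

namespace Rec3e

open Set TopologicalSpace Filter Topology

namespace SS

/-- lengths of the blocks: `len 0 = 1`, `len (k+1) = (4 * 4 ^ len k * len k + 4) * len k` -/
def len : ℕ → ℕ
  | 0 => 1
  | k + 1 => (4 * 4 ^ len k * len k + 4) * len k

/-- number of sub-blocks -/
def mul (k : ℕ) : ℕ := 4 * 4 ^ len k * len k + 4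

lemma len_succ (k : ℕ) : len (k + 1) = mul k * len k := rfl

lemma len_pos (k : ℕ) : 0 < len k := by
  induction k with
  | zero => simp [len]
  | succ k ih => rw [len_succ]; unfold mul; positivity

lemma mul_ge (k : ℕ) : 4 ≤ mul k := by unfold mul; omega

lemma len_le_succ (k : ℕ) : 4 * len k ≤ len (k + 1) := by
  rw [len_succ]; exact Nat.mul_le_mul_right _ (mul_ge k)

lemma len_mono {j k : ℕ} (h : j ≤ k) : len j ≤ len k :=
  monotone_nat_of_le_succ (fun n => by have := len_le_succ n; omega) h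

lemma len_dvd {j k : ℕ} (h : j ≤ k) : len j ∣ len k := by
  induction h with
  | refl => exact dvd_refl _
  | step h ih => exact ih.trans ⟨mul _, by rw [len_succ]; ring⟩

/-- `z` carries a level `k` block at `[s, s + len k)`. -/
def Good : ℕ → (ℤ → Bool) → ℤ → Prop
  | 0, _, _ => True
  | k + 1, z, s => (∀ i : ℕ, i < mul k → Good k z (s + i * len k)) ∧
      ∀ v : ℤ → Bool, Good k v 0 → ∃ i : ℕ, i < mul k ∧
        ∀ j : ℤ, 0 ≤ j → j < len k → z (s + i * len k + j) = v j

lemma good_congr : ∀ (k : ℕ) (z z' : ℤ → Bool) (s s' : ℤ),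
    (∀ j : ℤ, 0 ≤ j → j < len k → z (s + j) = z' (s' + j)) → Good k z s → Good k z' s' := by
  intro k
  induction k with
  | zero => intro z z' s s' _ _; trivial
  | succ k ih =>
    intro z z' s s' h hg
    have hlen : ((len (k + 1) : ℕ) : ℤ) = mul k * len k := by rw [len_succ]; push_cast; ring
    have hl : (0 : ℤ) < len k := by exact_mod_cast len_pos k
    have hin : ∀ i : ℕ, i < mul k → ∀ j : ℤ, 0 ≤ j → j < len k →
        0 ≤ (i : ℤ) * len k + j ∧ (i : ℤ) * len k + j < len (k + 1) := by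
      intro i hi j hj0 hj1
      have h1 : (i : ℤ) + 1 ≤ mul k := by exact_mod_cast hi
      rw [hlen]
      constructor
      · positivity
      · nlinarith
    refine ⟨?_, ?_⟩
    · intro i hi
      refine ih z z' (s + i * len k) (s' + i * len k) ?_ (hg.1 i hi)
      intro j hj0 hj1
      have := h (i * len k + j) (hin i hi j hj0 hj1).1 (hin i hi j hj0 hj1).2
      rw [← add_assoc, ← add_assoc] at this
      exact this
    · intro v hv
      obtain ⟨i, hi, h2⟩ := hg.2 v hv
      refine ⟨i, hi, ?_⟩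
      intro j hj0 hj1
      have := h (i * len k + j) (hin i hi j hj0 hj1).1 (hin i hi j hj0 hj1).2
      rw [← add_assoc, ← add_assoc] at this
      rw [← this]; exact h2 j hj0 hj1

lemma good_shift {k : ℕ} {z : ℤ → Bool} {s : ℤ} (h : Good k z s) (a : ℤ) :
    Good k (fun t => z (t + (s - a))) a :=
  good_congr k z _ s a (fun j _ _ => by show _ = z _; congr 1; ring) h

lemma good_compl : ∀ (k : ℕ) (z : ℤ → Bool) (s : ℤ), Good k z s → Good k (fun t => !(z t)) s := by
  intro k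
  induction k with
  | zero => intro z s _; trivial
  | succ k ih =>
    intro z s h
    refine ⟨fun i hi => ih z _ (h.1 i hi), ?_⟩
    intro v hv
    obtain ⟨i, hi, h2⟩ := h.2 (fun t => !(v t)) (ih v 0 hv)
    refine ⟨i, hi, fun j hj0 hj1 => ?_⟩
    show (!(z _)) = _
    rw [h2 j hj0 hj1]; simp

lemma good_sub : ∀ (K : ℕ) (v : ℤ → Bool) (s : ℤ), Good K v s → ∀ j, j ≤ K → ∀ q : ℕ,
    (q + 1) * len j ≤ len K → Good j v (s + q * len j) := by
  intro K
  induction K with
  | zero =>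
    intro v s h j hj q hq
    obtain rfl : j = 0 := by omega
    trivial
  | succ K ih =>
    intro v s h j hj q hq
    rcases Nat.lt_or_ge j (K + 1) with hlt | hge
    · have hjK : j ≤ K := by omega
      obtain ⟨r, hr⟩ := len_dvd hjK
      have hlj := len_pos j
      have hlK := len_pos K
      have hrpos : 0 < r := by
        rcases Nat.eq_zero_or_pos r with h0 | h0
        · subst h0; simp at hr; omega
        · exact h0
      -- q = i * r + q'
      have hq2 : q = (q / r) * r + q % r := (Nat.div_add_mod' q r).symm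
      have hmod : q % r < r := Nat.mod_lt _ hrpos
      have hi : q / r < mul K := by
        rw [Nat.div_lt_iff_lt_mul hrpos]
        have h1 : (q + 1) * len j ≤ (mul K * r) * len j := by
          rw [len_succ, hr] at hq
          calc (q + 1) * len j ≤ mul K * (len j * r) := hq
            _ = (mul K * r) * len j := by ring
        have := Nat.le_of_mul_le_mul_right h1 hlj
        omega
      have h2 := ih v (s + (q / r : ℕ) * len K) (h.1 (q / r) hi) j hjK (q % r) (by
        rw [hr]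
        calc (q % r + 1) * len j ≤ r * len j := Nat.mul_le_mul_right _ hmod
          _ = len j * r := by ring)
      have h3 : s + ((q / r : ℕ) : ℤ) * len K + ((q % r : ℕ) : ℤ) * len j = s + q * len j := by
        have e1 : (len K : ℤ) = len j * r := by rw [hr]; push_cast; ring
        have e2 : (q : ℤ) = ((q / r : ℕ) : ℤ) * r + ((q % r : ℕ) : ℤ) := by exact_mod_cast hq2
        rw [e1]
        conv_rhs => rw [e2]
        ring
      rw [h3] at h2
      exact h2
    · obtain rfl : j = K + 1 := by omega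
      have hq0 : q = 0 := by
        have hp := len_pos (K + 1)
        by_contra hne
        have : 2 * len (K + 1) ≤ (q + 1) * len (K + 1) := Nat.mul_le_mul_right _ (by omega)
        omega
      subst hq0
      simpa using h

/-- the subshift -/
def Zset : Set (ℤ → Bool) :=
  {z | ∀ R : ℕ, ∃ (k : ℕ) (s : ℤ) (v : ℤ → Bool), Good k v s ∧ s ≤ -R ∧ (R : ℤ) < s + len k ∧
    ∀ t : ℤ, -R ≤ t → t ≤ R → z t = v t}

/-- windows determine neighbourhoods -/
lemma exists_window {U : Set (ℤ → Bool)} (hU : IsOpen U) {u : ℤ → Bool} (hu : u ∈ U) :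
    ∃ R : ℕ, ∀ z : ℤ → Bool, (∀ t : ℤ, -R ≤ t → t ≤ R → z t = u t) → z ∈ U := by
  obtain ⟨I, V, hV, hIV⟩ := isOpen_pi_iff.1 hU u hu
  refine ⟨I.sup (fun t => t.natAbs), ?_⟩
  intro z hz
  apply hIV
  intro t ht
  have h1 : t.natAbs ≤ I.sup (fun t => t.natAbs) := Finset.le_sup (f := fun t : ℤ => t.natAbs) ht
  rw [hz t (by omega) (by omega)]
  exact (hV t ht).2

lemma window_open (u : ℤ → Bool) (R : ℕ) :
    IsOpen {z : ℤ → Bool | ∀ t : ℤ, -R ≤ t → t ≤ R → z t = u t} := by
  have : {z : ℤ → Bool | ∀ t : ℤ, -R ≤ t → t ≤ R → z t = u t} =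
      ⋂ t ∈ Finset.Icc (-(R : ℤ)) R, {z : ℤ → Bool | z t = u t} := by
    ext z
    simp only [mem_setOf_eq, mem_iInter, Finset.mem_Icc]
    exact ⟨fun h t ht => h t ht.1 ht.2, fun h t h1 h2 => h t ⟨h1, h2⟩⟩
  rw [this]
  refine isOpen_biInter_finset ?_
  intro t _
  exact (isOpen_discrete ({u t} : Set Bool)).preimage
    (continuous_apply t : Continuous fun z : ℤ → Bool => z t)

lemma Zset_closed : IsClosed Zset := by
  rw [← closure_subset_iff_isClosed]
  intro z hz R
  obtain ⟨x, hx, hxZ⟩ := mem_closure_iff.1 hz _ (window_open z R) (fun t _ _ => rfl)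
  obtain ⟨k, s, v, h1, h2, h3, h4⟩ := hxZ R
  exact ⟨k, s, v, h1, h2, h3, fun t ht1 ht2 => by rw [← hx t ht1 ht2]; exact h4 t ht1 ht2⟩

lemma Zset_shift {z : ℤ → Bool} (hz : z ∈ Zset) (a : ℤ) (ha : a.natAbs ≤ 1) :
    (fun t => z (t + a)) ∈ Zset := by
  intro R
  obtain ⟨k, s, v, h1, h2, h3, h4⟩ := hz (R + 1)
  push_cast at h2 h3 h4
  refine ⟨k, s - a, fun t => v (t + a), ?_, by omega, by omega, ?_⟩
  · refine good_congr k v _ s _ ?_ h1
    intro j _ _
    show v _ = v _
    congr 1; ring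
  · intro t ht1 ht2
    exact h4 (t + a) (by omega) (by omega)

/-- every level `k` block occurs in every point of the subshift -/
lemma contains {z : ℤ → Bool} (hz : z ∈ Zset) (k : ℕ) (v : ℤ → Bool) (hv : Good k v 0) :
    ∃ a : ℤ, ∀ j : ℤ, 0 ≤ j → j < len k → z (a + j) = v j := by
  obtain ⟨K, s, x, hx, hs1, hs2, hxz⟩ := hz (2 * len (k + 1))
  push_cast at hs1 hs2 hxz
  have hl : (0 : ℤ) < len (k + 1) := by exact_mod_cast len_pos (k + 1)
  have hKk : k + 1 ≤ K := by
    by_contra hcon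
    have h1 : len K ≤ len (k + 1) := len_mono (by omega)
    have h2 : (len K : ℤ) ≤ len (k + 1) := by exact_mod_cast h1
    omega
  set L : ℤ := (len (k + 1) : ℤ) with hL
  -- q = ceil((-2L - s)/L)
  set q : ℤ := -((s + 2 * L) / L) with hq
  have hdm := Int.mul_ediv_add_emod (s + 2 * L) L
  have hm1 := Int.emod_nonneg (s + 2 * L) hl.ne'
  have hm2 := Int.emod_lt_of_pos (s + 2 * L) hl
  have hqL : q * L = -(s + 2 * L) + (s + 2 * L) % L := by
    rw [hq]; linarith [hdm]
  have hq0 : 0 ≤ q := by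
    by_contra hcon
    have : q ≤ -1 := by omega
    nlinarith
  obtain ⟨q', hq'⟩ := Int.eq_ofNat_of_zero_le hq0
  have hle : (q' + 1) * len (k + 1) ≤ len K := by
    have : ((q' : ℤ) + 1) * L ≤ len K := by rw [← hq']; nlinarith
    have h2 : (((q' + 1) * len (k + 1) : ℕ) : ℤ) ≤ len K := by push_cast; exact this
    exact_mod_cast h2
  have hg := good_sub K x s hx (k + 1) hKk q' hle
  rw [← hq', ← hL, hqL] at hg
  obtain ⟨i, hi, hi2⟩ := hg.2 v hv
  refine ⟨s + (-(s + 2 * L) + (s + 2 * L) % L) + i * len k, ?_⟩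
  intro j hj0 hj1
  rw [hxz]
  · exact hi2 j hj0 hj1
  · have : (0 : ℤ) ≤ i * len k := by positivity
    linarith
  · have h1 : (i : ℤ) + 1 ≤ mul k := by exact_mod_cast hi
    have h2 : L = mul k * len k := by rw [hL, len_succ]; push_cast; ring
    have h3 : (0 : ℤ) < len k := by exact_mod_cast len_pos k
    nlinarith


/-! ### Building blocks with prescribed letters on the squares -/

/-- gluing blocks -/
def glue (s : ℤ) (L : ℤ) (u : ℕ → ℤ → Bool) : ℤ → Bool := fun t => u ((t - s) / L).toNat t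

lemma index_eq {s L : ℤ} (hL : 0 < L) (i : ℕ) (t : ℤ) (h1 : s + i * L ≤ t)
    (h2 : t < s + i * L + L) : (t - s) / L = i := by
  refine ((Int.ediv_emod_unique hL (a := t - s) (r := t - s - i * L) (q := i)).2
    ⟨by ring, by linarith, by linarith⟩).1

lemma glue_eq {s L : ℤ} (hL : 0 < L) (u : ℕ → ℤ → Bool) (i : ℕ) (t : ℤ) (h1 : s + i * L ≤ t)
    (h2 : t < s + i * L + L) : glue s L u t = u i t := by
  unfold glue
  rw [index_eq hL i t h1 h2, Int.toNat_natCast]

/-- the code of a word of length `len k` -/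
noncomputable def code (k : ℕ) (v : ℤ → Bool) : ℕ :=
  (Fintype.equivFin (Fin (len k) → Bool) (fun x => v (x : ℕ))).val

lemma code_lt (k : ℕ) (v : ℤ → Bool) : code k v < 2 ^ len k := by
  have := (Fintype.equivFin (Fin (len k) → Bool) (fun x => v (x : ℕ))).isLt
  simpa [code] using this

lemma code_inj {k : ℕ} {v v' : ℤ → Bool} (h : code k v = code k v') (j : ℤ) (h0 : 0 ≤ j)
    (h1 : j < len k) : v j = v' j := by
  have h2 := (Fintype.equivFin (Fin (len k) → Bool)).injective (Fin.ext h)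
  obtain ⟨j', rfl⟩ := Int.eq_ofNat_of_zero_le h0
  exact congrFun h2 ⟨j', by exact_mod_cast h1⟩

lemma assemble_block (k : ℕ) (s : ℤ) (r : ℕ) (hr : r + 2 ^ len k ≤ mul k) (d : ℕ → ℤ → Bool)
    (hd : ∀ i, i < mul k → Good k (d i) (s + i * len k)) :
    ∃ z, Good (k + 1) z s ∧ ∀ i : ℕ, i < mul k → (i < r ∨ r + 2 ^ len k ≤ i) →
      ∀ t : ℤ, s + i * len k ≤ t → t < s + i * len k + len k → z t = d i t := by
  classical
  have hL : (0 : ℤ) < len k := by exact_mod_cast len_pos k
  let u : ℕ → ℤ → Bool := fun i =>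
    if h : r ≤ i ∧ i < r + 2 ^ len k ∧ ∃ v, Good k v 0 ∧ code k v = i - r then
      fun t => h.2.2.choose (t - (s + i * len k)) else d i
  have hu : ∀ i, i < mul k → Good k (u i) (s + i * len k) := by
    intro i hi
    by_cases h : r ≤ i ∧ i < r + 2 ^ len k ∧ ∃ v, Good k v 0 ∧ code k v = i - r
    · simp only [u, dif_pos h]
      have := h.2.2.choose_spec.1
      refine good_congr k _ _ 0 _ ?_ this
      intro j _ _
      show h.2.2.choose (0 + j) = h.2.2.choose (s + i * len k + j - (s + i * len k))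
      rw [show s + (i : ℤ) * len k + j - (s + i * len k) = 0 + j by ring]
    · simp only [u, dif_neg h]
      exact hd i hi
  refine ⟨glue s (len k) u, ⟨?_, ?_⟩, ?_⟩
  · intro i hi
    refine good_congr k (u i) _ _ _ ?_ (hu i hi)
    intro j hj0 hj1
    rw [glue_eq hL u i _ (by linarith) (by linarith)]
  · intro v hv
    have hc := code_lt k v
    refine ⟨r + code k v, by omega, ?_⟩
    intro j hj0 hj1
    rw [glue_eq hL u (r + code k v) _ (by linarith) (by linarith)]
    have h : r ≤ r + code k v ∧ r + code k v < r + 2 ^ len k ∧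
        ∃ v', Good k v' 0 ∧ code k v' = r + code k v - r :=
      ⟨by omega, by omega, v, hv, by omega⟩
    simp only [u, dif_pos h]
    have h2 := h.2.2.choose_spec.2
    have h3 : code k h.2.2.choose = code k v := by rw [h2]; omega
    rw [show s + ((r + code k v : ℕ) : ℤ) * (len k : ℤ) + j - (s + ((r + code k v : ℕ) : ℤ) * len k) = j
      by ring]
    exact code_inj h3 j hj0 hj1
  · intro i hi hir t ht1 ht2
    rw [glue_eq hL u i t ht1 ht2]
    have h : ¬ (r ≤ i ∧ i < r + 2 ^ len k ∧ ∃ v, Good k v 0 ∧ code k v = i - r) := by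
      rintro ⟨h1, h2, _⟩; omega
    simp only [u, dif_neg h]

lemma region {s c : ℤ} (hc : 0 ≤ c) (hs : c ^ 2 ≤ s) :
    (∀ n : ℕ, ¬ (s ≤ (n : ℤ) ^ 2 ∧ (n : ℤ) ^ 2 < s + c)) ∨
    (∀ n : ℕ, ¬ (s + c ≤ (n : ℤ) ^ 2 ∧ (n : ℤ) ^ 2 < s + 2 * c)) := by
  by_contra hcon
  rw [not_or] at hcon
  push Not at hcon
  obtain ⟨⟨a, ha1, ha2⟩, ⟨b, hb1, hb2⟩⟩ := hcon
  have hab : (a : ℤ) < b := by
    by_contra h
    have : (b : ℤ) ≤ a := by omega
    have h0 : (0 : ℤ) ≤ b := by positivity
    nlinarith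
  have hac : c ≤ a := by
    by_contra h
    have h' : (a : ℤ) < c := by omega
    have h0 : (0 : ℤ) ≤ a := by positivity
    nlinarith
  have : (a : ℤ) + 1 ≤ b := by omega
  have h0 : (0 : ℤ) ≤ a := by positivity
  nlinarith

/-- threshold -/
def sg : ℕ → ℕ
  | 0 => 0
  | j + 1 => (2 ^ len j * len j) ^ 2

lemma sg_le (j : ℕ) : 4 * sg j ≤ len j := by
  cases j with
  | zero => simp [sg]
  | succ j =>
    have h4 : (4 : ℕ) ^ len j = 2 ^ len j * 2 ^ len j := by
      rw [← Nat.mul_pow]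
    rw [len_succ]
    unfold sg mul
    rw [h4]
    nlinarith [len_pos j]

lemma sg_mono (j : ℕ) : sg j ≤ sg (j + 1) := by
  have h1 := sg_le j
  have h2 : len j ≤ sg (j + 1) := by
    unfold sg
    have h3 : 1 ≤ 2 ^ len j := Nat.one_le_two_pow
    have h4 := len_pos j
    calc len j ≤ 2 ^ len j * len j := by nlinarith
      _ ≤ (2 ^ len j * len j) ^ 2 := Nat.le_self_pow (by norm_num) _
  omega

lemma two_pow_le (j : ℕ) : (2 ^ len j * 2 ^ len j) * len j + 2 + 2 * 2 ^ len j ≤ mul j := by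
  have h4 : (4 : ℕ) ^ len j = 2 ^ len j * 2 ^ len j := by rw [← Nat.mul_pow]
  unfold mul
  rw [h4]
  have h1 : 1 ≤ 2 ^ len j := Nat.one_le_two_pow
  have h2 := len_pos j
  have h3 : 2 ^ len j ≤ (2 ^ len j * 2 ^ len j) * len j := by
    calc 2 ^ len j = 2 ^ len j * 1 * 1 := by ring
      _ ≤ (2 ^ len j * 2 ^ len j) * len j := Nat.mul_le_mul (Nat.mul_le_mul_left _ h1) h2
  have h5 : 4 * (2 ^ len j * 2 ^ len j) * len j = 4 * ((2 ^ len j * 2 ^ len j) * len j) := by ring
  have h6 : 1 ≤ (2 ^ len j * 2 ^ len j) * len j := h1.trans h3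
  rw [h5]
  generalize (2 ^ len j * 2 ^ len j) * len j = X at h3 h6 ⊢
  omega

/-- blocks far to the right can be chosen to have the letter `b` on all squares -/
lemma squares_block : ∀ (j : ℕ) (s : ℤ), (sg j : ℤ) ≤ s → ∀ b : Bool, ∃ z, Good j z s ∧
    ∀ n : ℕ, s ≤ (n : ℤ) ^ 2 → (n : ℤ) ^ 2 < s + len j → z ((n : ℤ) ^ 2) = b := by
  intro j
  induction j with
  | zero => intro s _ b; exact ⟨fun _ => b, trivial, fun _ _ _ => rfl⟩
  | succ j ih =>
    intro s hs b
    have hL : (0 : ℤ) < len j := by exact_mod_cast len_pos j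
    have hsg : (sg j : ℤ) ≤ sg (j + 1) := by exact_mod_cast sg_mono j
    have hd : ∀ i : ℕ, ∃ z, Good j z (s + i * len j) ∧ ∀ n : ℕ, s + i * len j ≤ (n : ℤ) ^ 2 →
        (n : ℤ) ^ 2 < s + i * len j + len j → z ((n : ℤ) ^ 2) = b := by
      intro i
      refine ih (s + i * len j) ?_ b
      have : (0 : ℤ) ≤ i * len j := by positivity
      linarith
    choose d hd1 hd2 using hd
    set cc : ℕ := 2 ^ len j with hcc
    have hcs : ((cc : ℤ) * len j) ^ 2 ≤ s := by
      refine le_trans (le_of_eq ?_) hs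
      unfold sg; push_cast; rfl
    have hmul := two_pow_le j
    rw [← hcc] at hmul
    have hreg : ∃ r : ℕ, r + cc ≤ mul j ∧ ∀ n : ℕ, ¬ (s + r * len j ≤ (n : ℤ) ^ 2 ∧
        (n : ℤ) ^ 2 < s + r * len j + cc * len j) := by
      rcases region (by positivity) hcs with h | h
      · refine ⟨0, by omega, ?_⟩
        simpa using h
      · refine ⟨cc, by omega, ?_⟩
        intro n hn
        refine h n ⟨hn.1, ?_⟩
        have := hn.2
        linarith
    obtain ⟨r, hr, hrn⟩ := hreg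
    obtain ⟨z, hz1, hz2⟩ := assemble_block j s r hr d (fun i _ => hd1 i)
    refine ⟨z, hz1, ?_⟩
    intro n hn1 hn2
    set q : ℤ := ((n : ℤ) ^ 2 - s) / len j with hq
    have hq0 : 0 ≤ q := Int.ediv_nonneg (by linarith) hL.le
    obtain ⟨i, hi⟩ := Int.eq_ofNat_of_zero_le hq0
    have hdm := Int.mul_ediv_add_emod ((n : ℤ) ^ 2 - s) (len j)
    have hm1 := Int.emod_nonneg ((n : ℤ) ^ 2 - s) hL.ne'
    have hm2 := Int.emod_lt_of_pos ((n : ℤ) ^ 2 - s) hL
    rw [← hq, hi] at hdm
    have g1 : s + i * len j ≤ (n : ℤ) ^ 2 := by linarith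
    have g2 : (n : ℤ) ^ 2 < s + i * len j + len j := by linarith
    have himul : i < mul j := by
      have h1 : (len (j + 1) : ℤ) = mul j * len j := by rw [len_succ]; push_cast; ring
      have h2 : (i : ℤ) * len j < mul j * len j := by linarith
      exact_mod_cast lt_of_mul_lt_mul_right h2 hL.le
    rw [hz2 i himul ?_ _ g1 g2]
    · exact hd2 i n g1 g2
    · by_contra hcon
      push Not at hcon
      have c1 : (r : ℤ) ≤ i := by exact_mod_cast hcon.1
      have c2 : (i : ℤ) + 1 ≤ r + cc := by exact_mod_cast hcon.2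
      refine hrn n ⟨?_, ?_⟩
      · nlinarith
      · nlinarith

lemma step (j : ℕ) (s : ℤ) (z0 : ℤ → Bool) (b : Bool) (N : ℕ) (w : ℤ → Bool) (hz0 : Good j z0 s)
    (hw : Good j w 0) (hs0 : s ≤ 0) (hs : -(len j : ℤ) ≤ 2 * s)
    (hc : ∀ n : ℕ, N < n → (n : ℤ) ^ 2 < s + len j → z0 ((n : ℤ) ^ 2) = b) :
    ∃ z1, Good (j + 1) z1 (s - len j) ∧ (∀ t, s ≤ t → t < s + len j → z1 t = z0 t) ∧
      (∀ t, s - len j ≤ t → t < s → z1 t = w (t - (s - len j))) ∧
      ∀ n : ℕ, N < n → (n : ℤ) ^ 2 < s - len j + len (j + 1) → z1 ((n : ℤ) ^ 2) = b := by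
  have hL : (0 : ℤ) < len j := by exact_mod_cast len_pos j
  have hsg : 4 * (sg j : ℤ) ≤ len j := by exact_mod_cast sg_le j
  have hd : ∀ i : ℕ, ∃ z, Good j z (s - len j + i * len j) ∧
      (i = 0 → ∀ t, z t = w (t - (s - len j))) ∧ (i = 1 → ∀ t, z t = z0 t) ∧
      (2 ≤ i → ∀ n : ℕ, s - len j + i * len j ≤ (n : ℤ) ^ 2 →
        (n : ℤ) ^ 2 < s - len j + i * len j + len j → z ((n : ℤ) ^ 2) = b) := by
    intro i
    rcases Nat.lt_or_ge i 2 with hi | hi
    · interval_cases i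
      · refine ⟨fun t => w (t - (s - len j)), ?_, fun _ _ => rfl, by simp, by simp⟩
        refine good_congr j w _ 0 _ ?_ hw
        intro x _ _
        congr 1; push_cast; ring
      · refine ⟨z0, ?_, by simp, fun _ _ => rfl, by simp⟩
        refine good_congr j z0 _ s _ ?_ hz0
        intro x _ _
        congr 1; push_cast; ring
    · obtain ⟨z, h1, h2⟩ := squares_block j (s - len j + i * len j) (by
        have : (2 : ℤ) ≤ i := by exact_mod_cast hi
        nlinarith [Int.natCast_nonneg (sg j)]) b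
      exact ⟨z, h1, by omega, by omega, fun _ => h2⟩
  choose d hd1 hd2 hd3 hd4 using hd
  set cc : ℕ := 2 ^ len j with hcc
  have hmul := two_pow_le j
  rw [← hcc] at hmul
  set r0 : ℕ := cc * cc * len j + 2 with hr0
  have hcs : ((cc : ℤ) * len j) ^ 2 ≤ s - len j + r0 * len j := by
    rw [hr0]; push_cast; nlinarith
  have hreg : ∃ r : ℕ, 2 ≤ r ∧ r + cc ≤ mul j ∧ ∀ n : ℕ, ¬ (s - len j + r * len j ≤ (n : ℤ) ^ 2 ∧
      (n : ℤ) ^ 2 < s - len j + r * len j + cc * len j) := by
    rcases region (by positivity) hcs with h | h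
    · exact ⟨r0, by omega, by omega, h⟩
    · refine ⟨r0 + cc, by omega, by omega, ?_⟩
      intro n hn
      refine h n ⟨?_, ?_⟩
      · have := hn.1
        push_cast at this
        linarith
      · have := hn.2
        push_cast at this
        linarith
  obtain ⟨r, hr2, hr, hrn⟩ := hreg
  obtain ⟨z, hz1, hz2⟩ := assemble_block j (s - len j) r hr d (fun i _ => hd1 i)
  have hm4 := mul_ge j
  refine ⟨z, hz1, ?_, ?_, ?_⟩
  · intro t ht1 ht2
    rw [hz2 1 (by omega) (by omega) t (by push_cast; linarith) (by push_cast; linarith)]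
    exact hd3 1 rfl t
  · intro t ht1 ht2
    rw [hz2 0 (by omega) (by omega) t (by push_cast; linarith) (by push_cast; linarith)]
    exact hd2 0 rfl t
  · intro n hn hn2
    have hnn : (0 : ℤ) ≤ (n : ℤ) ^ 2 := by positivity
    set q : ℤ := ((n : ℤ) ^ 2 - (s - len j)) / len j with hq
    have hq0 : 0 ≤ q := Int.ediv_nonneg (by linarith) hL.le
    obtain ⟨i, hi⟩ := Int.eq_ofNat_of_zero_le hq0
    have hdm := Int.mul_ediv_add_emod ((n : ℤ) ^ 2 - (s - len j)) (len j)
    have hm1 := Int.emod_nonneg ((n : ℤ) ^ 2 - (s - len j)) hL.ne'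
    have hm2 := Int.emod_lt_of_pos ((n : ℤ) ^ 2 - (s - len j)) hL
    rw [← hq, hi] at hdm
    have g1 : s - len j + i * len j ≤ (n : ℤ) ^ 2 := by linarith
    have g2 : (n : ℤ) ^ 2 < s - len j + i * len j + len j := by linarith
    have himul : i < mul j := by
      have h1 : (len (j + 1) : ℤ) = mul j * len j := by rw [len_succ]; push_cast; ring
      have h2 : (i : ℤ) * len j < mul j * len j := by linarith
      exact_mod_cast lt_of_mul_lt_mul_right h2 hL.le
    rw [hz2 i himul ?_ _ g1 g2]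
    · rcases Nat.lt_or_ge i 2 with hi2 | hi2
      · interval_cases i
        · exfalso
          push_cast at g2
          linarith
        · rw [hd3 1 rfl]
          refine hc n hn ?_
          push_cast at g2
          linarith
      · exact hd4 i hi2 n g1 g2
    · by_contra hcon
      push Not at hcon
      have c1 : (r : ℤ) ≤ i := by exact_mod_cast hcon.1
      have c2 : (i : ℤ) + 1 ≤ r + cc := by exact_mod_cast hcon.2
      refine hrn n ⟨?_, ?_⟩
      · nlinarith
      · nlinarith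


lemma iterate (j : ℕ) (s : ℤ) (z0 : ℤ → Bool) (b : Bool) (N : ℕ) (hz0 : Good j z0 s)
    (hs0 : s ≤ 0) (hs : -(len j : ℤ) ≤ 2 * s)
    (hc : ∀ n : ℕ, N < n → (n : ℤ) ^ 2 < s + len j → z0 ((n : ℤ) ^ 2) = b) :
    ∃ z ∈ Zset, (∀ t, s ≤ t → t < s + len j → z t = z0 t) ∧
      (∀ n : ℕ, N < n → z ((n : ℤ) ^ 2) = b) ∧
      ∀ R : ℕ, ∃ (k : ℕ) (s' : ℤ), Good k z s' ∧ s' ≤ -R ∧ (R : ℤ) < s' + len k ∧
        -(len k : ℤ) ≤ 2 * s' := by
  let ss : ℕ → ℤ := fun i => Nat.rec s (fun i x => x - len (j + i)) i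
  have ss0 : ss 0 = s := rfl
  have ssS : ∀ i, ss (i + 1) = ss i - len (j + i) := fun i => rfl
  have hinv : ∀ i, ss i ≤ -i ∧ -(len (j + i) : ℤ) ≤ 2 * ss i ∧ (i : ℤ) < ss i + len (j + i) := by
    intro i
    induction i with
    | zero =>
      have : (0 : ℤ) < len j := by exact_mod_cast len_pos j
      refine ⟨by simpa [ss0] using hs0, by simpa [ss0] using hs, ?_⟩
      simp only [ss0, add_zero, Nat.cast_zero]
      linarith
    | succ i ih =>
      have h1 : (0 : ℤ) < len (j + i) := by exact_mod_cast len_pos (j + i)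
      have h2 : 4 * (len (j + i) : ℤ) ≤ len (j + (i + 1)) := by
        exact_mod_cast len_le_succ (j + i)
      rw [ssS]
      push_cast
      refine ⟨by linarith [ih.1], by linarith [ih.2.1], by linarith [ih.2.1, ih.2.2]⟩
  let Pr : ℕ → (ℤ → Bool) → Prop := fun i z => Good (j + i) z (ss i) ∧
    ∀ n : ℕ, N < n → (n : ℤ) ^ 2 < ss i + len (j + i) → z ((n : ℤ) ^ 2) = b
  have hstep : ∀ i (p : {z // Pr i z}), ∃ p' : {z // Pr (i + 1) z},
      ∀ t, ss i ≤ t → t < ss i + len (j + i) → p'.1 t = p.1 t := by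
    rintro i ⟨z, hz1, hz2⟩
    obtain ⟨z1, h1, h2, _, h4⟩ := step (j + i) (ss i) z b N (fun t => z (t + (ss i - 0))) hz1
      (good_shift hz1 0) (by have := (hinv i).1; omega) (hinv i).2.1 hz2
    exact ⟨⟨z1, h1, h4⟩, h2⟩
  choose nx hnx using hstep
  let sq : ∀ i, {z // Pr i z} := fun i => Nat.rec ⟨z0, hz0, hc⟩ nx i
  have sqS : ∀ i, sq (i + 1) = nx i (sq i) := fun i => rfl
  have nested : ∀ i, ss (i + 1) ≤ ss i ∧ ss i + len (j + i) ≤ ss (i + 1) + len (j + (i + 1)) := by
    intro i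
    have h1 : (0 : ℤ) < len (j + i) := by exact_mod_cast len_pos (j + i)
    have h2 : 4 * (len (j + i) : ℤ) ≤ len (j + (i + 1)) := by
      exact_mod_cast len_le_succ (j + i)
    rw [ssS]
    constructor <;> linarith
  have coh : ∀ i k, i ≤ k → ∀ t, ss i ≤ t → t < ss i + len (j + i) →
      (sq k).1 t = (sq i).1 t ∧ ss k ≤ t ∧ t < ss k + len (j + k) := by
    intro i k hik t ht1 ht2
    induction k, hik using Nat.le_induction with
    | base => exact ⟨rfl, ht1, ht2⟩
    | succ k hk ih =>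
      obtain ⟨h1, h2, h3⟩ := ih
      refine ⟨?_, (nested k).1.trans h2, lt_of_lt_of_le h3 (nested k).2⟩
      rw [sqS, hnx k (sq k) t h2 h3, h1]
  set z : ℤ → Bool := fun t => (sq t.natAbs).1 t with hz
  have hzi : ∀ i t, ss i ≤ t → t < ss i + len (j + i) → z t = (sq i).1 t := by
    intro i t ht1 ht2
    have hi := hinv t.natAbs
    rcases le_total i t.natAbs with h | h
    · exact (coh i t.natAbs h t ht1 ht2).1
    · exact ((coh t.natAbs i h t (by omega) (by omega)).1).symm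
  have hgood : ∀ i, Good (j + i) z (ss i) := by
    intro i
    refine good_congr (j + i) (sq i).1 z (ss i) (ss i) ?_ (sq i).2.1
    intro x hx0 hx1
    exact (hzi i _ (by linarith) (by linarith)).symm
  refine ⟨z, ?_, ?_, ?_, ?_⟩
  · intro R
    exact ⟨j + R, ss R, z, hgood R, (hinv R).1, (hinv R).2.2, fun _ _ _ => rfl⟩
  · intro t ht1 ht2
    exact hzi 0 t ht1 ht2
  · intro n hn
    have h1 := hinv (n ^ 2)
    have h2 : ((n ^ 2 : ℕ) : ℤ) = (n : ℤ) ^ 2 := by push_cast; ring
    rw [hzi (n ^ 2) _ (by rw [h2] at h1; nlinarith [h1.1, sq_nonneg (n : ℤ)])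
      (by rw [h2] at h1; exact h1.2.2)]
    refine (sq (n ^ 2)).2.2 n hn ?_
    rw [h2] at h1; exact h1.2.2
  · intro R
    exact ⟨j + R, ss R, hgood R, (hinv R).1, (hinv R).2.2, (hinv R).2.1⟩

lemma exists_good (k : ℕ) : ∃ z, Good k z 0 := by
  obtain ⟨z, hz, _⟩ := squares_block k (sg k) le_rfl true
  exact ⟨_, good_shift hz 0⟩

/-- the good sets -/
def GG (N : ℕ) : Set (ℤ → Bool) :=
  {z | z ∈ Zset ∧ (∀ n : ℕ, N < n → z ((n : ℤ) ^ 2) ≠ z 0) ∧
    ∀ R : ℕ, ∃ (k : ℕ) (s' : ℤ), Good k z s' ∧ s' ≤ -R ∧ (R : ℤ) < s' + len k ∧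
        -(len k : ℤ) ≤ 2 * s'}

lemma bool_ne {a b : Bool} : a ≠ b ↔ a = !b := by cases a <;> cases b <;> simp

lemma GG_dense (u : ℤ → Bool) (hu : u ∈ Zset) (R : ℕ) :
    ∃ N, ∃ z ∈ GG N, ∀ t : ℤ, -R ≤ t → t ≤ R → z t = u t := by
  obtain ⟨k, s, v, hv, hs1, hs2, huv⟩ := hu R
  have hL : (0 : ℤ) < len k := by exact_mod_cast len_pos k
  have hR : (0 : ℤ) ≤ R := by positivity
  have hm4 := mul_ge k
  -- embed `v` at index 1 of a level `k+1` block
  have hmul := two_pow_le k
  obtain ⟨z1, hz1, hz1'⟩ := assemble_block k (s - len k) 2 (by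
      have : 1 ≤ 2 ^ len k := Nat.one_le_two_pow
      nlinarith [Nat.zero_le ((2 ^ len k * 2 ^ len k) * len k)])
    (fun i t => v (t + (s - (s - len k + i * len k)))) (fun i _ => good_shift hv _)
  have hz1v : ∀ t, s ≤ t → t < s + len k → z1 t = v t := by
    intro t ht1 ht2
    rw [hz1' 1 (by omega) (by omega) t (by push_cast; linarith) (by push_cast; linarith)]
    congr 1; push_cast; ring
  have h4 : 4 * (len k : ℤ) ≤ len (k + 1) := by exact_mod_cast len_le_succ k
  obtain ⟨z, hzZ, hz2, hz3, hz4⟩ := iterate (k + 1) (s - len k) z1 (!(u 0)) (len (k + 1)) hz1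
    (by linarith) (by linarith) (by
      intro n hn hn2
      exfalso
      have h1 : (len (k + 1) : ℤ) < n := by exact_mod_cast hn
      have h2 : (0 : ℤ) < len (k + 1) := by exact_mod_cast len_pos (k + 1)
      nlinarith)
  have hzu : ∀ t : ℤ, -R ≤ t → t ≤ R → z t = u t := by
    intro t ht1 ht2
    rw [hz2 t (by linarith) (by linarith), hz1v t (by linarith) (by linarith), huv t ht1 ht2]
  refine ⟨len (k + 1), z, ⟨hzZ, ?_, hz4⟩, hzu⟩
  intro n hn
  rw [hz3 n hn, hzu 0 (by linarith) hR]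
  cases u 0 <;> simp

lemma GG_perfect (N : ℕ) (z : ℤ → Bool) (hz : z ∈ GG N) (R : ℕ) :
    ∃ z' ∈ GG N, (∀ t : ℤ, -R ≤ t → t ≤ R → z' t = z t) ∧ z' ≠ z := by
  obtain ⟨hzZ, hz1, hz2⟩ := hz
  obtain ⟨k, s, hg, hs1, hs2, hs3⟩ := hz2 R
  have hL : (0 : ℤ) < len k := by exact_mod_cast len_pos k
  have hR : (0 : ℤ) ≤ R := by positivity
  obtain ⟨g, hg0⟩ := exists_good k
  obtain ⟨w, hw, hw0⟩ : ∃ w, Good k w 0 ∧ w 0 ≠ z (s - len k) := by
    by_cases h : g 0 = z (s - len k)
    · refine ⟨fun t => !(g t), good_compl k g 0 hg0, ?_⟩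
      show (!(g 0)) ≠ z (s - len k)
      rw [h]; cases z (s - len k) <;> simp
    · exact ⟨g, hg0, h⟩
  obtain ⟨z1, h1, h2, h3, h4⟩ := step k s z (!(z 0)) N w hg hw (by linarith) hs3 (by
    intro n hn _
    exact bool_ne.1 (hz1 n hn))
  have h5 : 4 * (len k : ℤ) ≤ len (k + 1) := by exact_mod_cast len_le_succ k
  obtain ⟨z', a1, a2, a3, a4⟩ := iterate (k + 1) (s - len k) z1 (!(z 0)) N h1
    (by linarith) (by linarith) h4
  have hzz : ∀ t, s ≤ t → t < s + len k → z' t = z t := by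
    intro t ht1 ht2
    rw [a2 t (by linarith) (by linarith), h2 t ht1 ht2]
  refine ⟨z', ⟨a1, ?_, a4⟩, ?_, ?_⟩
  · intro n hn
    rw [a3 n hn, hzz 0 (by linarith) (by linarith)]
    cases z 0 <;> simp
  · intro t ht1 ht2
    exact hzz t (by linarith) (by linarith)
  · intro heq
    apply hw0
    have := a2 (s - len k) le_rfl (by linarith)
    rw [h3 _ le_rfl (by linarith), sub_self, heq] at this
    exact this.symm

/-! ### The final form -/

/-- the shift on all sequences -/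
def shift : (ℤ → Bool) ≃ₜ (ℤ → Bool) where
  toFun z := fun t => z (t + 1)
  invFun z := fun t => z (t - 1)
  left_inv z := by funext t; show z _ = z _; congr 1; ring
  right_inv z := by funext t; show z _ = z _; congr 1; ring
  continuous_toFun := continuous_pi fun t => continuous_apply _
  continuous_invFun := continuous_pi fun t => continuous_apply _

lemma mem_shift (z : ℤ → Bool) : z ∈ Zset ↔ shift z ∈ Zset := by
  constructor
  · intro h; exact Zset_shift h 1 (by simp)
  · intro h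
    have h3 := Zset_shift h (-1) (by simp)
    have e : (fun t => shift z (t + -1)) = z := by
      funext t
      show z (t + -1 + 1) = z t
      rw [show t + -1 + 1 = t by ring]
    rwa [e] at h3

/-- the shift on the subshift -/
def Sh : Zset ≃ₜ Zset := shift.subtype mem_shift

lemma Sh_pow (n : ℕ) (z : Zset) (t : ℤ) : ((Sh ^ n) z).1 t = z.1 (t + n) := by
  induction n generalizing z with
  | zero => simp
  | succ n ih =>
    rw [pow_succ]
    show ((Sh ^ n) (Sh z)).1 t = _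
    rw [ih]
    show z.1 (t + n + 1) = z.1 (t + ((n + 1 : ℕ) : ℤ))
    rw [show t + ((n + 1 : ℕ) : ℤ) = t + n + 1 by push_cast; ring]

lemma Sh_zpow (n : ℤ) (z : Zset) (t : ℤ) : ((Sh ^ n) z).1 t = z.1 (t + n) := by
  obtain ⟨m, rfl | rfl⟩ := n.eq_nat_or_neg
  · rw [zpow_natCast]; exact Sh_pow m z t
  · have h1 := Sh_pow m ((Sh ^ (-(m : ℤ))) z) (t - m)
    have h2 : (Sh ^ m) ((Sh ^ (-(m : ℤ))) z) = z := by
      show ((Sh ^ m) * (Sh ^ (-(m : ℤ)))) z = z
      rw [← zpow_natCast, ← zpow_add]; simp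
    rw [h2] at h1
    rw [show t - (m : ℤ) + m = t by ring] at h1
    have h3 := Sh_pow m ((Sh ^ (-(m : ℤ))) z) (t + -(m : ℤ))
    rw [h2, show t + -(m : ℤ) + m = t by ring] at h3
    exact h3.symm

end SS

open SS in
theorem sside : ∃ (Q : Type) (_ : TopologicalSpace Q) (_ : CompactSpace Q) (_ : T2Space Q)
      (_ : TotallyDisconnectedSpace Q) (_ : SecondCountableTopology Q) (_ : Nonempty Q)
      (S : Q ≃ₜ Q) (c : Q → ℕ) (G : ℕ → Set Q), Continuous c ∧
      (∀ U : Set Q, IsOpen U → U.Nonempty → ∀ x, ∃ n : ℤ, (S ^ n) x ∈ U) ∧ Monotone G ∧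
      (∀ N z, z ∈ G N → ∀ n > N, c ((S ^ (n ^ 2)) z) ≠ c z) ∧
      Dense (⋃ N, G N) ∧
      (∀ N x, x ∈ G N → ∀ U, IsOpen U → x ∈ U → ∃ x' ∈ G N ∩ U, x' ≠ x) := by
  have hne : Nonempty Zset := by
    obtain ⟨z, hz, _⟩ := iterate 0 0 (fun _ => true) true 0 trivial le_rfl (by simp)
      (fun _ _ _ => rfl)
    exact ⟨⟨z, hz⟩⟩
  refine ⟨Zset, inferInstance, isCompact_iff_compactSpace.1 Zset_closed.isCompact, inferInstance,
    inferInstance, inferInstance, hne, Sh, fun z => (z.1 0).toNat, fun N => {z | z.1 ∈ GG N},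
    ?_, ?_, ?_, ?_, ?_, ?_⟩
  · exact (continuous_of_discreteTopology (f := Bool.toNat)).comp
      ((continuous_apply (0 : ℤ)).comp continuous_subtype_val)
  · rintro U hU ⟨u, hu⟩ x
    obtain ⟨V, hV, rfl⟩ := isOpen_induced_iff.1 hU
    obtain ⟨R, hR⟩ := exists_window hV hu
    obtain ⟨k, s, v, hv, hs1, hs2, huv⟩ := u.2 R
    obtain ⟨a, ha⟩ := contains x.2 k _ (good_shift hv 0)
    refine ⟨a - s, ?_⟩
    apply hR
    intro t ht1 ht2
    rw [Sh_zpow, huv t ht1 ht2]
    have := ha (t - s) (by linarith) (by linarith)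
    rw [show t + (a - s) = a + (t - s) by ring, this]
    show v _ = v _
    congr 1; ring
  · intro M N hMN z hz
    exact ⟨hz.1, fun n hn => hz.2.1 n (lt_of_le_of_lt hMN hn), hz.2.2⟩
  · intro N z hz n hn
    have h1 := hz.2.1 n hn
    show (((Sh ^ (n ^ 2)) z).1 0).toNat ≠ (z.1 0).toNat
    rw [Sh_pow, zero_add]
    push_cast
    intro h
    apply h1
    revert h
    cases z.1 ((n : ℤ) ^ 2) <;> cases z.1 0 <;> simp
  · rw [dense_iff_inter_open]
    rintro U hU ⟨u, hu⟩
    obtain ⟨V, hV, rfl⟩ := isOpen_induced_iff.1 hU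
    obtain ⟨R, hR⟩ := exists_window hV hu
    obtain ⟨N, z, hz, hzu⟩ := GG_dense u.1 u.2 R
    exact ⟨⟨z, hz.1⟩, hR z hzu, mem_iUnion.2 ⟨N, hz⟩⟩
  · intro N x hx U hU hxU
    obtain ⟨V, hV, rfl⟩ := isOpen_induced_iff.1 hU
    obtain ⟨R, hR⟩ := exists_window hV hxU
    obtain ⟨z', hz', h1, h2⟩ := GG_perfect N x.1 hx R
    exact ⟨⟨z', hz'.1⟩, ⟨hz', hR z' h1⟩, fun h => h2 (congrArg Subtype.val h)⟩

end Rec3e
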