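import Mathlib

open Topology Filter

namespace Rec3e
namespace TSide

/-! ### The block lengths -/

def c : ℕ → ℤ
  | 0 => 4
  | k+1 => (12*(c k+1)*3^k+6*(c k+1)+12)*c k + (6*c k*3^k)*(c k+1) + (6*(c k+1)+1)*c k

def nA (k : ℕ) : ℤ := 12*(c k+1)*3^k+6*(c k+1)+12
def nB (k : ℕ) : ℤ := 6*c k*3^k
def LA (k : ℕ) : ℤ := nA k * c k
def LB (k : ℕ) : ℤ := nB k * (c k+1)

lemma c_succ (k : ℕ) : c (k+1) = LA k + LB k + (6*(c k+1)+1)*c k := rfl

lemma c_ge : ∀ k, 4 ≤ c k
  | 0 => le_refl _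
  | k+1 => by
    have h := c_ge k
    have h3 : (0:ℤ) < 3^k := by positivity
    have hA : 0 ≤ LA k := by
      unfold LA nA; positivity
    have hB : 0 ≤ LB k := by
      unfold LB nB; positivity
    rw [c_succ]; nlinarith

lemma LA_ge (k : ℕ) : 12 * c k ≤ LA k := by
  have h := c_ge k
  have h3 : (0:ℤ) < 3^k := by positivity
  unfold LA nA
  have : 0 ≤ (12*(c k+1)*3^k+6*(c k+1)) * c k := by positivity
  nlinarith

lemma LB_ge (k : ℕ) : 6 * (c k + 1) ≤ LB k := by
  have h := c_ge k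
  have h3 : (1:ℤ) ≤ 3^k := one_le_pow₀ (by norm_num)
  unfold LB nB
  have : 1 ≤ c k * 3^k := by nlinarith
  nlinarith

lemma c_mod6 : ∀ k, c k % 6 = 4
  | 0 => rfl
  | k+1 => by
    have h := c_mod6 k
    have : c (k+1) = 6 * ((2*(c k+1)*3^k+(c k+1)+2)*c k + (c k*3^k)*(c k+1) + (c k+1)*c k) + c k := by
      rw [c_succ]; unfold LA LB nA nB; ring
    omega

lemma k_le_c : ∀ k : ℕ, (k:ℤ) ≤ c k
  | 0 => by have := c_ge 0; simp; omega
  | k+1 => by
    have h := k_le_c k
    have h1 := LA_ge k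
    have h2 := LB_ge k
    have h3 := c_ge k
    rw [c_succ]; push_cast
    nlinarith

lemma c_le_succ (k : ℕ) : 12 * c k ≤ c (k+1) := by
  have h1 := LA_ge k
  have h2 := LB_ge k
  have h3 := c_ge k
  rw [c_succ]
  nlinarith

/-! ### The block contents, as periodic functions -/

def ab : ℕ → (ℤ → Fin 9) × (ℤ → Fin 9)
  | 0 => (fun t => ⟨(t % 4).toNat, by omega⟩, fun t => ⟨4 + (t % 5).toNat, by omega⟩)
  | k+1 =>
    (fun t => if t % c (k+1) < LA k then (ab k).1 (t % c (k+1)) else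
              if t % c (k+1) < LA k + LB k then (ab k).2 (t % c (k+1) - LA k) else
              (ab k).1 (t % c (k+1) - LA k - LB k),
     fun t => if t % (c (k+1)+1) < LA k then (ab k).1 (t % (c (k+1)+1)) else
              (ab k).2 (t % (c (k+1)+1) - LA k))

def a (k : ℕ) : ℤ → Fin 9 := (ab k).1
def b (k : ℕ) : ℤ → Fin 9 := (ab k).2

lemma a_succ (k : ℕ) (t : ℤ) : a (k+1) t = if t % c (k+1) < LA k then a k (t % c (k+1)) else
              if t % c (k+1) < LA k + LB k then b k (t % c (k+1) - LA k) else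
              a k (t % c (k+1) - LA k - LB k) := rfl
lemma b_succ (k : ℕ) (t : ℤ) : b (k+1) t = if t % (c (k+1)+1) < LA k then a k (t % (c (k+1)+1)) else
              b k (t % (c (k+1)+1) - LA k) := rfl

lemma a_add (k : ℕ) (t n : ℤ) : a k (t + n * c k) = a k t := by
  cases k with
  | zero =>
    have : (t + n * 4) % 4 = t % 4 := Int.add_mul_emod_self_right ..
    simp only [a, ab, c, this]
  | succ k => simp only [a_succ, Int.add_mul_emod_self_right]

lemma b_add (k : ℕ) (t n : ℤ) : b k (t + n * (c k+1)) = b k t := by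
  cases k with
  | zero =>
    have : (t + n * (4+1)) % 5 = t % 5 := by
      exact Int.add_mul_emod_self_right t n 5
    simp only [b, ab, c, this]
  | succ k => simp only [b_succ, Int.add_mul_emod_self_right]

lemma a_run1 {k : ℕ} {t : ℤ} (h0 : 0 ≤ t) (h1 : t < LA k) : a (k+1) t = a k t := by
  have hB := LB_ge k
  have hc := c_ge k
  have : t % c (k+1) = t := by
    apply Int.emod_eq_of_lt h0
    rw [c_succ]; nlinarith
  rw [a_succ, this, if_pos h1]

lemma a_run2 {k : ℕ} {t : ℤ} (h0 : 0 ≤ t) (h1 : t < LB k) : a (k+1) (LA k + t) = b k t := by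
  have hA := LA_ge k
  have hc := c_ge k
  have : (LA k + t) % c (k+1) = LA k + t := by
    apply Int.emod_eq_of_lt (by omega)
    rw [c_succ]; nlinarith
  rw [a_succ, this, if_neg (by omega), if_pos (by omega)]
  congr 1; ring

lemma a_run3 {k : ℕ} {t : ℤ} (h0 : -((6*(c k+1)+1)*c k) ≤ t) (h1 : t < 0) : a (k+1) t = a k t := by
  have hA := LA_ge k
  have hB := LB_ge k
  have hc := c_ge k
  have e : t % c (k+1) = t + c (k+1) := by
    have : (t + 1 * c (k+1)) % c (k+1) = t % c (k+1) := Int.add_mul_emod_self_right ..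
    rw [← this, one_mul]
    apply Int.emod_eq_of_lt
    · rw [c_succ]; linarith
    · linarith
  rw [a_succ, e, if_neg, if_neg]
  · rw [c_succ]
    have : t + (LA k + LB k + (6 * (c k + 1) + 1) * c k) - LA k - LB k = t + (6 * (c k + 1) + 1) * c k := by
      ring
    rw [this, a_add]
  · rw [c_succ]; linarith
  · rw [c_succ]; linarith

lemma b_run1 {k : ℕ} {t : ℤ} (h0 : 0 ≤ t) (h1 : t < LA k) : b (k+1) t = a k t := by
  have hB := LB_ge k
  have hc := c_ge k
  have : t % (c (k+1)+1) = t := by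
    apply Int.emod_eq_of_lt h0
    rw [c_succ]; nlinarith
  rw [b_succ, this, if_pos h1]

lemma b_len (k : ℕ) : c (k+1) + 1 = LA k + LB k + (6*c k+1)*(c k+1) := by
  rw [c_succ]; ring

lemma b_run2 {k : ℕ} {t : ℤ} (h0 : 0 ≤ t) (h1 : t < LB k + (6*c k+1)*(c k+1)) :
    b (k+1) (LA k + t) = b k t := by
  have hA := LA_ge k
  have hc := c_ge k
  have : (LA k + t) % (c (k+1)+1) = LA k + t := by
    apply Int.emod_eq_of_lt (by omega)
    rw [b_len]; linarith
  rw [b_succ, this, if_neg (by omega)]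
  congr 1; ring

lemma b_run3 {k : ℕ} {t : ℤ} (h0 : -((6*c k+1)*(c k+1)) ≤ t) (h1 : t < 0) :
    b (k+1) t = b k t := by
  have hB := LB_ge k
  have e : b (k+1) (t + 1 * (c (k+1) + 1)) = b (k+1) t := b_add ..
  rw [← e, one_mul, b_len]
  have e2 : t + (LA k + LB k + (6*c k+1)*(c k+1)) = LA k + (t + LB k + (6*c k+1)*(c k+1)) := by ring
  rw [e2, b_run2]
  · have : t + LB k + (6*c k+1)*(c k+1) = t + (nB k + (6*c k+1))*(c k+1) := by unfold LB; ring
    rw [this, b_add]
  · have := c_ge k; linarith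
  · linarith

/-! ### Stabilisation -/

lemma a_stab {k K : ℕ} (h : k ≤ K) {t : ℤ} (h0 : -(c k) ≤ t) (h1 : t < c k) : a K t = a k t := by
  induction K, h using Nat.le_induction with
  | base => rfl
  | succ K hK ih =>
    have hmono : c k ≤ c K := by
      clear ih h0 h1
      induction K, hK using Nat.le_induction with
      | base => exact le_refl _
      | succ K hK ih => have := c_le_succ K; have := c_ge K; linarith
    rw [← ih]
    rcases lt_or_ge t 0 with ht | ht
    · apply a_run3 _ ht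
      have := c_ge K; nlinarith
    · apply a_run1 ht
      have := LA_ge K; have := c_ge K; linarith

lemma c_mono {k K : ℕ} (h : k ≤ K) : c k ≤ c K := by
  induction K, h using Nat.le_induction with
  | base => exact le_refl _
  | succ K hK ih => have := c_le_succ K; have := c_ge K; linarith

lemma b_stab {k K : ℕ} (h : k ≤ K) {t : ℤ} (h0 : -(c k + 1) ≤ t) (h1 : t < 0) : b K t = b k t := by
  induction K, h using Nat.le_induction with
  | base => rfl
  | succ K hK ih =>
    have hmono : c k ≤ c K := c_mono hK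
    rw [← ih]
    apply b_run3 _ h1
    have := c_ge K; nlinarith

/-- the limit word -/
def u (t : ℤ) : Fin 9 := a (t.natAbs + 1) t

lemma u_eq {K : ℕ} {t : ℤ} (h0 : -(c K) ≤ t) (h1 : t < c K) : u t = a K t := by
  unfold u
  have h2 := k_le_c (t.natAbs+1)
  rcases le_total (t.natAbs+1) K with h | h
  · rw [a_stab h]
    · omega
    · omega
  · rw [a_stab h h0 h1]

/-- the companion of the limit word -/
def v (t : ℤ) : Fin 9 := if t < 0 then b (t.natAbs + 1) t else u t

lemma v_neg {K : ℕ} {t : ℤ} (h0 : -(c K + 1) ≤ t) (h1 : t < 0) : v t = b K t := by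
  unfold v
  rw [if_pos h1]
  have h2 := k_le_c (t.natAbs+1)
  rcases le_total (t.natAbs+1) K with h | h
  · rw [b_stab h]
    · omega
    · omega
  · rw [b_stab h h0 h1]

lemma v_nonneg {t : ℤ} (h : 0 ≤ t) : v t = u t := by
  unfold v; rw [if_neg (by omega)]

/-! ### The subshift -/

def Y : Set (ℤ → Fin 9) := {y | ∀ R : ℕ, ∃ s : ℤ, ∀ t : ℤ, |t| ≤ R → y t = u (t + s)}

lemma u_mem : u ∈ Y := fun _ => ⟨0, fun t _ => by rw [add_zero]⟩

lemma v_mem : v ∈ Y := by
  intro R
  refine ⟨LA (R+2) + (c (R+2) + 1), fun t ht => ?_⟩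
  rw [abs_le] at ht
  have h1 := k_le_c (R+1)
  push_cast at h1
  have h2 := c_le_succ (R+1)
  have h3 := c_ge (R+1)
  have e : v t = b (R+2) t := by
    rcases lt_or_ge t 0 with h | h
    · apply v_neg _ h
      rw [show R + 2 = R + 1 + 1 from rfl]; linarith
    · rw [v_nonneg h, u_eq (K := R+1) (by linarith) (by linarith)]
      symm; apply b_run1 h
      have := LA_ge (R+1); linarith
  have hB := LB_ge (R+2)
  have hA := LA_ge (R+2)
  have hc := c_ge (R+2)
  have hR2 : c (R+1+1) = c (R+2) := rfl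
  rw [e, u_eq (K := R+3), show t + (LA (R+2) + (c (R+2)+1)) = LA (R+2) + (t + 1 * (c (R+2)+1)) by ring,
    show R+3 = (R+2)+1 from rfl, a_run2, b_add]
  · linarith
  · linarith
  · have := c_ge (R+3); linarith
  · have e3 : c (R+3) = LA (R+2) + LB (R+2) + (6*(c (R+2)+1)+1)*c (R+2) := c_succ (R+2)
    rw [e3]; nlinarith

lemma shift_mem {y : ℤ → Fin 9} (hy : y ∈ Y) (n : ℤ) : (fun t => y (t + n)) ∈ Y := by
  intro R
  obtain ⟨s, hs⟩ := hy (R + n.natAbs)
  refine ⟨n + s, fun t ht => ?_⟩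
  simp only
  rw [hs (t + n), add_assoc]
  have := abs_add_le t n
  rw [Nat.cast_add, Int.natCast_natAbs]
  linarith

lemma window {y : ℤ → Fin 9} (hy : y ∈ Y) (r : ℕ) : ∃ K0 : ℕ, ∀ K ≥ K0,
    (∃ s : ℤ, ∀ t : ℤ, |t| ≤ r → y t = a K (t + s)) ∧
    (∃ s : ℤ, ∀ t : ℤ, |t| ≤ r → y t = b K (t + s)) := by
  obtain ⟨s, hs⟩ := hy r
  have key : ∀ K ≥ s.natAbs + r + 1, ∀ t : ℤ, |t| ≤ r → y t = a K (t + s) := by
    intro K hK t ht
    have := k_le_c K
    rw [hs t ht, u_eq (K := K)]
    · rw [abs_le] at ht; omega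
    · rw [abs_le] at ht; omega
  refine ⟨s.natAbs + r + 2, fun K hK => ⟨⟨s, key K (by omega)⟩, ?_⟩⟩
  obtain ⟨K', rfl⟩ : ∃ K', K = K' + 1 := ⟨K - 1, by omega⟩
  refine ⟨s + c K', fun t ht => ?_⟩
  rw [key K' (by omega) t ht, ← a_add K' _ 1, one_mul, add_assoc, b_run1]
  · have := k_le_c K'
    rw [abs_le] at ht; omega
  · have := k_le_c K'
    have := LA_ge K'
    rw [abs_le] at ht; omega

/-! ### Tilings -/

inductive Tile (k : ℕ) (f : ℤ → Fin 9) : ℤ → ℤ → Prop
  | nil (i : ℤ) : Tile k f i i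
  | consC {i j i' : ℤ} (hi : i' = i + c k) (h : ∀ t, 0 ≤ t → t < c k → f (i + t) = a k t)
      (hT : Tile k f i' j) : Tile k f i j
  | consD {i j i' : ℤ} (hi : i' = i + (c k + 1)) (h : ∀ t, 0 ≤ t → t < c k + 1 → f (i + t) = b k t)
      (hT : Tile k f i' j) : Tile k f i j

lemma Tile.le {k : ℕ} {f : ℤ → Fin 9} {i j : ℤ} (h : Tile k f i j) : i ≤ j := by
  have := c_ge k
  induction h with
  | nil => exact le_refl _
  | consC hi _ _ ih => omega
  | consD hi _ _ ih => omega

lemma Tile.trans {k : ℕ} {f : ℤ → Fin 9} {i j l : ℤ} (h : Tile k f i j) (h' : Tile k f j l) :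
    Tile k f i l := by
  induction h with
  | nil => exact h'
  | consC hi hh _ ih => exact .consC hi hh (ih h')
  | consD hi hh _ ih => exact .consD hi hh (ih h')

lemma Tile.shift {k : ℕ} {f g : ℤ → Fin 9} {i j : ℤ} (h : Tile k f i j) (s : ℤ)
    (hg : ∀ t, i ≤ t → t < j → g (t + s) = f t) : Tile k g (i + s) (j + s) := by
  have hc := c_ge k
  induction h with
  | nil => exact .nil _
  | @consC i j i' hi hh hT ih =>
    have hle := hT.le
    refine .consC (i' := i' + s) (by omega) (fun t h0 h1 => ?_) (ih fun t h0 h1 => hg t (by omega) h1)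
    rw [← hh t h0 h1, ← hg (i+t) (by omega) (by omega)]
    congr 1; ring
  | @consD i j i' hi hh hT ih =>
    have hle := hT.le
    refine .consD (i' := i' + s) (by omega) (fun t h0 h1 => ?_) (ih fun t h0 h1 => hg t (by omega) h1)
    rw [← hh t h0 h1, ← hg (i+t) (by omega) (by omega)]
    congr 1; ring

lemma Tile.runC {k : ℕ} {f : ℤ → Fin 9} (n : ℕ) : ∀ (i : ℤ),
    (∀ t, 0 ≤ t → t < n * c k → f (i + t) = a k t) → Tile k f i (i + n * c k) := by
  have hc := c_ge k
  induction n with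
  | zero => intro i _; simp only [Nat.cast_zero, zero_mul, add_zero]; exact .nil _
  | succ n ih =>
    intro i h
    refine .consC (i' := i + c k) rfl (fun t h0 h1 => h t h0 ?_) ?_
    · push_cast; nlinarith
    · have : i + ((n+1 : ℕ) : ℤ) * c k = (i + c k) + n * c k := by push_cast; ring
      rw [this]
      apply ih
      intro t h0 h1
      rw [← a_add k t 1, one_mul, ← h (t + c k)]
      · congr 1; ring
      · linarith
      · push_cast; linarith

lemma Tile.runD {k : ℕ} {f : ℤ → Fin 9} (n : ℕ) : ∀ (i : ℤ),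
    (∀ t, 0 ≤ t → t < n * (c k + 1) → f (i + t) = b k t) → Tile k f i (i + n * (c k + 1)) := by
  have hc := c_ge k
  induction n with
  | zero => intro i _; simp only [Nat.cast_zero, zero_mul, add_zero]; exact .nil _
  | succ n ih =>
    intro i h
    refine .consD (i' := i + (c k + 1)) rfl (fun t h0 h1 => h t h0 ?_) ?_
    · push_cast; nlinarith
    · have : i + ((n+1 : ℕ) : ℤ) * (c k + 1) = (i + (c k + 1)) + n * (c k + 1) := by push_cast; ring
      rw [this]
      apply ih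
      intro t h0 h1
      rw [← b_add k t 1, one_mul, ← h (t + (c k + 1))]
      · congr 1; ring
      · linarith
      · push_cast; linarith

/-- `runC` with an integer multiplicity -/
lemma Tile.runC' {k : ℕ} {f : ℤ → Fin 9} (n : ℤ) (hn : 0 ≤ n) (i j : ℤ) (hj : j = i + n * c k)
    (h : ∀ t, 0 ≤ t → t < n * c k → f (i + t) = a k t) : Tile k f i j := by
  lift n to ℕ using hn
  rw [hj]; exact Tile.runC n i h

lemma Tile.runD' {k : ℕ} {f : ℤ → Fin 9} (n : ℤ) (hn : 0 ≤ n) (i j : ℤ) (hj : j = i + n * (c k + 1))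
    (h : ∀ t, 0 ≤ t → t < n * (c k + 1) → f (i + t) = b k t) : Tile k f i j := by
  lift n to ℕ using hn
  rw [hj]; exact Tile.runD n i h

lemma nA_nonneg (k : ℕ) : 0 ≤ nA k := by have := c_ge k; unfold nA; positivity
lemma nB_nonneg (k : ℕ) : 0 ≤ nB k := by have := c_ge k; unfold nB; positivity

lemma tile_a (k : ℕ) : Tile k (a (k+1)) 0 (c (k+1)) := by
  have hc := c_ge k
  have hA := LA_ge k
  have hB := LB_ge k
  refine (Tile.runC' (nA k) (nA_nonneg k) 0 (LA k) (by unfold LA; ring) ?_).trans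
    ((Tile.runD' (nB k) (nB_nonneg k) (LA k) (LA k + LB k) (by unfold LB; ring) ?_).trans
    (Tile.runC' (6*(c k+1)+1) (by linarith) (LA k + LB k) (c (k+1)) (c_succ k) ?_))
  · intro t h0 h1; rw [zero_add]; exact a_run1 h0 h1
  · intro t h0 h1; exact a_run2 h0 h1
  · intro t h0 h1
    rw [← a_add (k+1) _ (-1), ← a_add k t (-(6*(c k+1)+1))]
    rw [show LA k + LB k + t + -1 * c (k+1) = t + -(6*(c k+1)+1) * c k by rw [c_succ]; ring]
    apply a_run3 <;> linarith

lemma tile_b (k : ℕ) : Tile k (b (k+1)) 0 (c (k+1) + 1) := by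
  have hc := c_ge k
  have hA := LA_ge k
  have hB := LB_ge k
  refine (Tile.runC' (nA k) (nA_nonneg k) 0 (LA k) (by unfold LA; ring) ?_).trans
    (Tile.runD' (nB k + (6*c k+1)) (by have := nB_nonneg k; linarith) (LA k) (c (k+1)+1)
      (by rw [b_len]; unfold LB; ring) ?_)
  · intro t h0 h1; rw [zero_add]; exact b_run1 h0 h1
  · intro t h0 h1; apply b_run2 h0; unfold LB; linarith

lemma Tile.refine1 {k : ℕ} {f : ℤ → Fin 9} {i j : ℤ} (h : Tile (k+1) f i j) : Tile k f i j := by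
  induction h with
  | nil => exact .nil _
  | @consC i j i' hi hh hT ih =>
    have := (tile_a k).shift (g := f) i (fun t h0 h1 => by rw [← hh t h0 h1, add_comm])
    rw [zero_add, add_comm] at this
    rw [← hi] at this
    exact this.trans ih
  | @consD i j i' hi hh hT ih =>
    have := (tile_b k).shift (g := f) i (fun t h0 h1 => by rw [← hh t h0 h1, add_comm])
    rw [zero_add, add_comm] at this
    rw [← hi] at this
    exact this.trans ih

lemma Tile.refine {k K : ℕ} (hk : k ≤ K) {f : ℤ → Fin 9} {i j : ℤ} (h : Tile K f i j) :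
    Tile k f i j := by
  induction K, hk using Nat.le_induction with
  | base => exact h
  | succ K hK ih => exact ih h.refine1

lemma Tile.next {k : ℕ} {f : ℤ → Fin 9} {i j q : ℤ} (h : Tile k f i j) (h0 : i ≤ q)
    (h1 : q + (c k + 1) ≤ j) : ∃ p, q < p ∧ p ≤ q + (c k + 1) ∧ Tile k f p j := by
  have hc := c_ge k
  induction h with
  | nil => omega
  | @consC i j i' hi hh hT ih =>
    by_cases hq : i' ≤ q
    · exact ih hq h1
    · exact ⟨i', by omega, by omega, hT⟩
  | @consD i j i' hi hh hT ih =>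
    by_cases hq : i' ≤ q
    · exact ih hq h1
    · exact ⟨i', by omega, by omega, hT⟩

def Occ (k : ℕ) (f : ℤ → Fin 9) (i : ℤ) : Prop :=
  (∀ t, 0 ≤ t → t < LA k → f (i + t) = a k t) ∧ (∀ t, 0 ≤ t → t < LB k → f (i + LA k + t) = b k t)

lemma Tile.occ {k : ℕ} {f : ℤ → Fin 9} {i j : ℤ} (h : Tile (k+1) f i j) (hij : i < j) :
    Occ k f i := by
  have hc := c_ge k
  have hA := LA_ge k
  have hB := LB_ge k
  have hs := c_succ k
  have h6 : 0 ≤ (6 * (c k + 1) + 1) * c k := by positivity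
  cases h with
  | nil => omega
  | consC hi hh hT =>
    refine ⟨fun t h0 h1 => ?_, fun t h0 h1 => ?_⟩
    · rw [hh t h0 (by linarith), a_run1 h0 h1]
    · rw [add_assoc, hh _ (by linarith) (by linarith), a_run2 h0 h1]
  | consD hi hh hT =>
    refine ⟨fun t h0 h1 => ?_, fun t h0 h1 => ?_⟩
    · rw [hh t h0 (by linarith), b_run1 h0 h1]
    · rw [add_assoc, hh _ (by linarith) (by linarith), b_run2 h0]
      have : 0 ≤ (6 * c k + 1) * (c k + 1) := by positivity
      linarith

/-- `u` is tiled on `[-c K, c K]` by blocks of level `K`. -/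
lemma tile_u (K : ℕ) : Tile K u (-(c K)) (c K) := by
  have hc := c_ge K
  apply Tile.runC' 2 (by norm_num) _ _ (by ring)
  intro t h0 h1
  rw [u_eq (K := K) (by linarith) (by linarith), ← a_add K t (-1)]
  congr 1; ring

lemma occ_u (k : ℕ) (q : ℤ) : ∃ p, q < p ∧ p ≤ q + (c (k+1) + 1) ∧ Occ k u p := by
  have hc := c_ge (k+1)
  set K := q.natAbs + (c (k+1) + 1).toNat + (k+1) + 1 with hK
  have h1 := k_le_c K
  have hT : Tile (k+1) u (-(c K)) (c K) := (tile_u K).refine (by omega)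
  obtain ⟨p, hp1, hp2, hp3⟩ := hT.next (q := q) (by omega) (by omega)
  exact ⟨p, hp1, hp2, hp3.occ (by omega)⟩

lemma occ_Y {y : ℤ → Fin 9} (hy : y ∈ Y) (k : ℕ) (q : ℤ) :
    ∃ p, q < p ∧ p ≤ q + (c (k+1) + 1) ∧ Occ k y p := by
  have hc := c_ge k
  have hc1 := c_ge (k+1)
  have hA := LA_ge k
  have hB := LB_ge k
  obtain ⟨s, hs⟩ := hy (q.natAbs + (c (k+1) + 1).toNat + (LA k).toNat + (LB k).toNat)
  obtain ⟨p, hp1, hp2, hp3⟩ := occ_u k (q + s)
  refine ⟨p - s, by omega, by omega, fun t h0 h1 => ?_, fun t h0 h1 => ?_⟩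
  · rw [hs, ← hp3.1 t h0 h1]
    · congr 1; ring
    · rw [abs_le]; omega
  · rw [hs, ← hp3.2 t h0 h1]
    · congr 1; ring
    · rw [abs_le]; omega

/-! ### Adjacent letters differ -/

lemma Tile.first {f : ℤ → Fin 9} {i j : ℤ} (h : Tile 0 f i j) (hij : i < j) :
    f i = 0 ∨ f i = 4 := by
  cases h with
  | nil => omega
  | consC hi hh hT => left; have := hh 0 le_rfl (by decide); rw [add_zero] at this; rw [this]; rfl
  | consD hi hh hT => right; have := hh 0 le_rfl (by decide); rw [add_zero] at this; rw [this]; rfl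

lemma Tile.adj {f : ℤ → Fin 9} {i j : ℤ} (h : Tile 0 f i j) :
    ∀ t, i ≤ t → t + 1 < j → f t ≠ f (t+1) := by
  induction h with
  | nil => intro t h0 h1; omega
  | @consC i j i' hi hh hT ih =>
    intro t h0 h1
    have hc : c 0 = 4 := rfl
    rw [hc] at hi hh
    by_cases h2 : i' ≤ t
    · exact ih t h2 h1
    · obtain rfl | rfl | rfl | rfl : t = i ∨ t = i + 1 ∨ t = i + 2 ∨ t = i + 3 := by omega
      · have e0 := hh 0 (by norm_num) (by norm_num)
        have e1 := hh 1 (by norm_num) (by norm_num)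
        rw [add_zero] at e0
        rw [e0, e1]; decide
      · have e0 := hh 1 (by norm_num) (by norm_num)
        have e1 := hh 2 (by norm_num) (by norm_num)
        rw [show i + 1 + 1 = i + 2 by ring, e0, e1]; decide
      · have e0 := hh 2 (by norm_num) (by norm_num)
        have e1 := hh 3 (by norm_num) (by norm_num)
        rw [show i + 2 + 1 = i + 3 by ring, e0, e1]; decide
      · have e0 := hh 3 (by norm_num) (by norm_num)
        have e1 := hT.first (by omega)
        rw [show i + 3 + 1 = i' by omega, e0]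
        rcases e1 with e1 | e1 <;> rw [e1] <;> decide
  | @consD i j i' hi hh hT ih =>
    intro t h0 h1
    have hc : c 0 = 4 := rfl
    rw [hc] at hi hh
    by_cases h2 : i' ≤ t
    · exact ih t h2 h1
    · obtain rfl | rfl | rfl | rfl | rfl : t = i ∨ t = i + 1 ∨ t = i + 2 ∨ t = i + 3 ∨ t = i + 4 := by
        omega
      · have e0 := hh 0 (by norm_num) (by norm_num)
        have e1 := hh 1 (by norm_num) (by norm_num)
        rw [add_zero] at e0
        rw [e0, e1]; decide
      · have e0 := hh 1 (by norm_num) (by norm_num)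
        have e1 := hh 2 (by norm_num) (by norm_num)
        rw [show i + 1 + 1 = i + 2 by ring, e0, e1]; decide
      · have e0 := hh 2 (by norm_num) (by norm_num)
        have e1 := hh 3 (by norm_num) (by norm_num)
        rw [show i + 2 + 1 = i + 3 by ring, e0, e1]; decide
      · have e0 := hh 3 (by norm_num) (by norm_num)
        have e1 := hh 4 (by norm_num) (by norm_num)
        rw [show i + 3 + 1 = i + 4 by ring, e0, e1]; decide
      · have e0 := hh 4 (by norm_num) (by norm_num)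
        have e1 := hT.first (by omega)
        rw [show i + 4 + 1 = i' by omega, e0]
        rcases e1 with e1 | e1 <;> rw [e1] <;> decide

lemma adj_u (t : ℤ) : u t ≠ u (t+1) := by
  set K := t.natAbs + 2 with hK
  have h1 := k_le_c K
  have hT : Tile 0 u (-(c K)) (c K) := (tile_u K).refine (by omega)
  exact hT.adj t (by omega) (by omega)

lemma adj_Y {y : ℤ → Fin 9} (hy : y ∈ Y) (t : ℤ) : y t ≠ y (t+1) := by
  obtain ⟨s, hs⟩ := hy (t.natAbs + 1)
  rw [hs t, hs (t+1)]
  · have := adj_u (t+s)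
    rwa [show t + s + 1 = t + 1 + s by ring] at this
  · rw [abs_le]; omega
  · rw [abs_le]; omega

/-! ### Chinese remainders -/

lemma crt2 (x y m n : ℤ) (h : IsCoprime m n) : ∃ z, m ∣ z - x ∧ n ∣ z - y := by
  obtain ⟨p, q, hpq⟩ := h
  refine ⟨y*p*m + x*q*n, ⟨p*(y-x), ?_⟩, ⟨q*(x-y), ?_⟩⟩
  · have : q * n = 1 - p * m := by linarith
    linear_combination x * this
  · have : p * m = 1 - q * n := by linarith
    linear_combination y * this

lemma crt_int (lo x y m n : ℤ) (h : IsCoprime m n) (hmn : 0 < m * n) :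
    ∃ z, lo ≤ z ∧ z < lo + m * n ∧ m ∣ z - x ∧ n ∣ z - y := by
  obtain ⟨z, h1, h2⟩ := crt2 x y m n h
  have e := Int.emod_add_mul_ediv (z - lo) (m * n)
  refine ⟨lo + (z - lo) % (m * n), ?_, ?_, ?_, ?_⟩
  · have := Int.emod_nonneg (z - lo) hmn.ne'; linarith
  · have := Int.emod_lt_of_pos (z - lo) hmn; linarith
  · have : lo + (z - lo) % (m * n) - x = (z - x) - m * (n * ((z - lo) / (m * n))) := by
      linear_combination e
    rw [this]; exact h1.sub (Dvd.intro _ rfl)
  · have : lo + (z - lo) % (m * n) - y = (z - y) - n * (m * ((z - lo) / (m * n))) := by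
      linear_combination e
    rw [this]; exact h2.sub (Dvd.intro _ rfl)

lemma cop1 (k : ℕ) : IsCoprime (c k) (c k + 1) := ⟨-1, 1, by ring⟩

lemma cop3 (k K : ℕ) : IsCoprime (c k * (c k + 1)) (3^K) := by
  apply IsCoprime.pow_right
  have h := c_mod6 k
  obtain ⟨q, hq⟩ : ∃ q, c k = 6 * q + 4 := ⟨c k / 6, by omega⟩
  rw [hq]
  exact ⟨-1, 12*q^2+18*q+7, by ring⟩

lemma a_congr {k : ℕ} {s t : ℤ} (h : c k ∣ t - s) : a k t = a k s := by
  obtain ⟨q, hq⟩ := h
  have : t = s + q * c k := by linarith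
  rw [this, a_add]

lemma b_congr {k : ℕ} {s t : ℤ} (h : c k + 1 ∣ t - s) : b k t = b k s := by
  obtain ⟨q, hq⟩ := h
  have : t = s + q * (c k + 1) := by linarith
  rw [this, b_add]

/-! ### Special points -/

lemma special {z z' : ℤ → Fin 9} (hz : z ∈ Y) (hz' : z' ∈ Y) (r : ℕ) (e : ℤ) (he : e = 0 ∨ e = 1) :
    ∃ m : ℕ, ∃ y ∈ Y, ∃ y' ∈ Y, (∀ t : ℤ, |t| ≤ r → y t = z t) ∧ (∀ t : ℤ, |t| ≤ r → y' t = z' t) ∧
      ∀ t : ℤ, m ≤ t → y' t = y (t + e) := by
  obtain ⟨K1, h1⟩ := window hz r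
  obtain ⟨K2, h2⟩ := window hz' r
  set K := max (max K1 K2) r with hK
  obtain ⟨s, hs⟩ := (h1 K (by omega)).1
  obtain ⟨s', hs'⟩ := (h2 K (by omega)).2
  have hKc := k_le_c K
  have hrK : (r : ℤ) ≤ K := by exact_mod_cast (le_max_right _ _)
  have hc := c_ge K
  have hcc : 0 < c K * (c K + 1) := by positivity
  obtain ⟨m, hm0, hm1, hm2, hm3⟩ := crt_int (r + 1) (-e-s) (-s') _ _ (cop1 K) hcc
  have hA := LA_ge K
  have hB := LB_ge K
  have hcs := c_succ K
  lift m to ℕ using (by linarith)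
  refine ⟨m, fun t => u (t + (-m-e)), shift_mem u_mem _, fun t => v (t + (-m)), shift_mem v_mem _,
    fun t ht => ?_, fun t ht => ?_, fun t ht => ?_⟩
  · rw [abs_le] at ht
    simp only
    rw [hs t (abs_le.2 ht), u_eq (K := K+1), a_run3]
    · apply a_congr
      have : t + (-m-e) - (t + s) = -(m - (-e-s)) := by ring
      rw [this]; exact hm2.neg_right
    · rcases he with rfl | rfl <;> nlinarith
    · rcases he with rfl | rfl <;> linarith
    · rcases he with rfl | rfl <;> nlinarith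
    · rcases he with rfl | rfl <;> nlinarith
  · rw [abs_le] at ht
    simp only
    rw [hs' t (abs_le.2 ht), v_neg (K := K+1), b_run3]
    · apply b_congr
      have : t + (-m) - (t + s') = -(m - (-s')) := by ring
      rw [this]; exact hm3.neg_right
    · nlinarith
    · linarith
    · nlinarith
    · linarith
  · simp only
    rw [v_nonneg (by linarith)]
    congr 1; ring

/-! ### Simultaneous returns -/

lemma meet {y y' z z' : ℤ → Fin 9} (hy : y ∈ Y) (hy' : y' ∈ Y) (hz : z ∈ Y) (hz' : z' ∈ Y)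
    (ρ : ℤ) (r : ℕ) : ∃ n : ℤ, (∀ t : ℤ, |t| ≤ r → y (t + n) = z t) ∧
      (∀ t : ℤ, |t| ≤ r → y' (t + 2 * n) = z' t) ∧ (3:ℤ)^r ∣ n - ρ := by
  obtain ⟨K1, h1⟩ := window hz r
  obtain ⟨K2, h2⟩ := window hz' r
  set K := max (max K1 K2) r with hK
  obtain ⟨s, hs⟩ := (h1 K (by omega)).1
  obtain ⟨s', hs'⟩ := (h2 K (by omega)).2
  have hKc := k_le_c K
  have hrK : (r : ℤ) ≤ K := by exact_mod_cast (le_max_right _ _)
  have hc := c_ge K
  have hcc : 0 < c K * (c K + 1) := by positivity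
  have hcs := c_succ K
  obtain ⟨p, -, -, hp, -⟩ := occ_Y hy K 0
  obtain ⟨p', hp'1, hp'2, -, hp'⟩ := occ_Y hy' K (2 * p + 2 * r - LA K)
  set b0 := p' + LA K with hb0
  set lo := (b0 + r + 1) / 2 with hlo
  have h3 : (1:ℤ) ≤ 3^K := one_le_pow₀ (by norm_num)
  obtain ⟨x0, hx1, hx2⟩ := crt2 (p + s) ((b0 + s') * (c K / 2 + 1)) _ _ (cop1 K)
  obtain ⟨n, hn0, hn1, hn2, hn3⟩ := crt_int lo x0 ρ _ _ (cop3 K K) (by positivity)
  have hn4 : c K ∣ n - (p + s) := by
    have : n - (p + s) = (n - x0) + (x0 - (p+s)) := by ring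
    rw [this]; exact ((Dvd.intro _ rfl).trans hn2).add hx1
  have hn5 : c K + 1 ∣ 2 * n - (b0 + s') := by
    have h6 := c_mod6 K
    obtain ⟨q, hq⟩ : ∃ q, c K = 2 * q := ⟨c K / 2, by omega⟩
    have hq2 : c K / 2 = q := by omega
    rw [hq2] at hx2
    have h7 : c K + 1 ∣ n - x0 := (Dvd.intro_left _ rfl).trans hn2
    have : 2 * n - (b0 + s') = 2 * (n - x0) + 2 * (x0 - (b0 + s') * (q + 1)) + (c K + 1) * (b0 + s') := by
      rw [hq]; ring
    rw [this]
    exact ((h7.mul_left 2).add (hx2.mul_left 2)).add (Dvd.intro _ rfl)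
  set M := c K * (c K + 1) * 3^K with hM
  have hMge : c K * (c K + 1) ≤ M := by rw [hM]; nlinarith
  have hLA : LA K = 12 * M + 6 * (c K * (c K + 1)) + 12 * c K := by
    unfold LA nA; rw [hM]; ring
  have hLB : LB K = 6 * M := by unfold LB nB; rw [hM]; ring
  have hlo1 : 2 * lo ≤ b0 + r + 1 := by omega
  have hlo2 : b0 + r ≤ 2 * lo := by omega
  refine ⟨n, fun t ht => ?_, fun t ht => ?_, ?_⟩
  · rw [abs_le] at ht
    have e1 : t + n = p + (t + n - p) := by ring
    rw [e1, hp, hs t (abs_le.2 ht)]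
    · apply a_congr
      rwa [show t + n - p - (t + s) = n - (p + s) by ring]
    · linarith
    · nlinarith
  · rw [abs_le] at ht
    have e1 : t + 2 * n = b0 + (t + 2 * n - b0) := by ring
    rw [e1, hp', hs' t (abs_le.2 ht)]
    · apply b_congr
      rwa [show t + 2 * n - b0 - (t + s') = 2 * n - (b0 + s') by ring]
    · linarith
    · nlinarith
  · exact (pow_dvd_pow 3 (by omega)).trans hn3

/-! ### The system -/

abbrev P : Type := ↥Y × ↥Y × ℤ_[3]

lemma isClosed_Y : IsClosed Y := by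
  have : Y = ⋂ R : ℕ, {y | ∃ s : ℤ, ∀ t : ℤ, |t| ≤ R → y t = u (t + s)} := by
    ext y; simp [Y]
  rw [this]
  refine isClosed_iInter fun R => ?_
  rw [← isOpen_compl_iff, isOpen_iff_forall_mem_open]
  intro y hy
  refine ⟨⋂ t ∈ Set.Icc (-(R:ℤ)) R, {y' | y' t = y t}, ?_, ?_, ?_⟩
  · intro y' hy' ⟨s, hs⟩
    apply hy
    refine ⟨s, fun t ht => ?_⟩
    rw [← hs t ht]
    simp only [Set.mem_iInter] at hy'
    exact (hy' t (by rw [abs_le] at ht; exact ht)).symm
  · refine (Set.finite_Icc _ _).isOpen_biInter fun t _ => ?_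
    have hc : Continuous (fun y' : ℤ → Fin 9 => y' t) := continuous_apply t
    exact (isOpen_discrete ({y t} : Set (Fin 9))).preimage hc
  · simp

instance : CompactSpace ↥Y := isCompact_iff_compactSpace.1 isClosed_Y.isCompact

noncomputable def Tz (n : ℤ) (x : P) : P :=
  (⟨fun t => x.1.1 (t + n), shift_mem x.1.2 n⟩,
   ⟨fun t => x.2.1.1 (t + 2 * n), shift_mem x.2.1.2 (2 * n)⟩, x.2.2 + n)

lemma Tz_add (m n : ℤ) (x : P) : Tz (m + n) x = Tz m (Tz n x) := by
  unfold Tz
  refine Prod.ext (Subtype.ext (funext fun t => ?_)) (Prod.ext (Subtype.ext (funext fun t => ?_)) ?_)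
  · simp only; rw [add_assoc]
  · simp only; exact congrArg _ (by ring)
  · simp only; push_cast; ring

lemma Tz_zero (x : P) : Tz 0 x = x := by
  unfold Tz
  ext t <;> simp

lemma continuous_Tz (n : ℤ) : Continuous (Tz n) := by
  unfold Tz
  refine Continuous.prodMk ?_ (Continuous.prodMk ?_ ?_)
  · refine Continuous.subtype_mk (continuous_pi fun t => ?_) _
    exact (continuous_apply _).comp (continuous_subtype_val.comp continuous_fst)
  · refine Continuous.subtype_mk (continuous_pi fun t => ?_) _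
    exact (continuous_apply _).comp (continuous_subtype_val.comp (continuous_fst.comp continuous_snd))
  · exact (continuous_snd.comp continuous_snd).add continuous_const

noncomputable def T : P ≃ₜ P where
  toFun := Tz 1
  invFun := Tz (-1)
  left_inv x := by rw [← Tz_add]; exact Tz_zero x
  right_inv x := by rw [← Tz_add]; exact Tz_zero x
  continuous_toFun := continuous_Tz 1
  continuous_invFun := continuous_Tz (-1)

lemma T_zpow (n : ℤ) (x : P) : (T ^ n) x = Tz n x := by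
  induction n using Int.induction_on generalizing x with
  | zero => rw [zpow_zero, Tz_zero]; rfl
  | succ n ih =>
    rw [zpow_add_one, Tz_add]
    exact ih _
  | pred n ih =>
    rw [zpow_sub_one, sub_eq_add_neg, Tz_add]
    exact ih _

lemma nbhd {U : Set P} (hU : IsOpen U) {x : P} (hx : x ∈ U) : ∃ r : ℕ, ∀ x' : P,
    (∀ t : ℤ, |t| ≤ r → x'.1.1 t = x.1.1 t) → (∀ t : ℤ, |t| ≤ r → x'.2.1.1 t = x.2.1.1 t) →
    ‖x'.2.2 - x.2.2‖ ≤ (3:ℝ) ^ (-(r:ℤ)) → x' ∈ U := by
  by_contra hcon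
  push Not at hcon
  choose w h1 h2 h3 h4 using hcon
  have hw : Tendsto w atTop (𝓝 x) := by
    have e1 : Tendsto (fun r => (w r).1) atTop (𝓝 x.1) := by
      rw [tendsto_subtype_rng, tendsto_pi_nhds]
      intro t
      refine tendsto_const_nhds.congr' ?_
      filter_upwards [eventually_ge_atTop t.natAbs] with r hr
      exact (h1 r t (by rw [abs_le]; omega)).symm
    have e2 : Tendsto (fun r => (w r).2.1) atTop (𝓝 x.2.1) := by
      rw [tendsto_subtype_rng, tendsto_pi_nhds]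
      intro t
      refine tendsto_const_nhds.congr' ?_
      filter_upwards [eventually_ge_atTop t.natAbs] with r hr
      exact (h2 r t (by rw [abs_le]; omega)).symm
    have e3 : Tendsto (fun r => (w r).2.2) atTop (𝓝 x.2.2) := by
      rw [tendsto_iff_norm_sub_tendsto_zero]
      refine squeeze_zero (fun _ => norm_nonneg _) h3 ?_
      have : Tendsto (fun r : ℕ => ((1:ℝ)/3)^r) atTop (𝓝 0) :=
        tendsto_pow_atTop_nhds_zero_of_lt_one (by norm_num) (by norm_num)
      refine this.congr fun r => ?_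
      rw [zpow_neg, zpow_natCast, one_div, inv_pow]
    exact e1.prodMk_nhds (e2.prodMk_nhds e3)
  obtain ⟨r, hr⟩ := (hw.eventually (hU.mem_nhds hx)).exists
  exact h4 r hr

lemma minimal_T (U : Set P) (hU : IsOpen U) (hne : U.Nonempty) (x : P) :
    ∃ n : ℤ, (T ^ n) x ∈ U := by
  obtain ⟨w, hw⟩ := hne
  obtain ⟨r, hr⟩ := nbhd hU hw
  obtain ⟨ρ, hρ⟩ : ∃ ρ : ℤ, ‖(ρ : ℤ_[3]) - (w.2.2 - x.2.2)‖ ≤ (3:ℝ) ^ (-(r:ℤ)) := by
    have hd := PadicInt.denseRange_intCast (p := 3)
    obtain ⟨ρ, hρ⟩ := hd.exists_dist_lt (w.2.2 - x.2.2) (ε := (3:ℝ) ^ (-(r:ℤ))) (by positivity)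
    refine ⟨ρ, ?_⟩
    rw [← dist_eq_norm, dist_comm]
    exact hρ.le
  obtain ⟨n, h1, h2, h3⟩ := meet x.1.2 x.2.1.2 w.1.2 w.2.1.2 ρ r
  refine ⟨n, ?_⟩
  rw [T_zpow]
  apply hr
  · exact h1
  · exact h2
  · have e : (Tz n x).2.2 - w.2.2 = ((n - ρ : ℤ) : ℤ_[3]) + ((ρ : ℤ_[3]) - (w.2.2 - x.2.2)) := by
      simp only [Tz]; push_cast; ring
    rw [e]
    refine (PadicInt.nonarchimedean _ _).trans (max_le ?_ hρ)
    have := (PadicInt.norm_int_le_pow_iff_dvd (p := 3) (k := n - ρ) (n := r)).2 (by exact_mod_cast h3)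
    exact_mod_cast this

def col (x : P) : ℕ := (x.1.1 0).val * 9 + (x.2.1.1 0).val

lemma continuous_col : Continuous col := by
  have h1 : Continuous (fun x : P => x.1.1 0) :=
    (continuous_apply _).comp (continuous_subtype_val.comp continuous_fst)
  have h2 : Continuous (fun x : P => x.2.1.1 0) :=
    (continuous_apply _).comp (continuous_subtype_val.comp (continuous_fst.comp continuous_snd))
  exact (continuous_of_discreteTopology (f := fun q : Fin 9 × Fin 9 => q.1.val * 9 + q.2.val)).comp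
    (h1.prodMk h2)

lemma col_eq {x x' : P} (h : col x = col x') : x.1.1 0 = x'.1.1 0 ∧ x.2.1.1 0 = x'.2.1.1 0 := by
  unfold col at h
  constructor <;> ext <;> omega

def G (N : ℕ) : Set P := {x | ∀ n : ℕ, N < n → ¬ (x.1.1 (2 * n) = x.1.1 0 ∧ x.2.1.1 (2 * n) = x.2.1.1 0)}

lemma G_dense : Dense (⋃ N, G N) := by
  rw [dense_iff_inter_open]
  intro U hU ⟨w, hw⟩
  obtain ⟨r, hr⟩ := nbhd hU hw
  obtain ⟨e, he, he'⟩ : ∃ e : ℤ, (e = 0 ∨ e = 1) ∧
      ((e = 0 ∧ w.1.1 0 ≠ w.2.1.1 0) ∨ (e = 1 ∧ w.1.1 0 = w.2.1.1 0)) := by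
    by_cases h : w.1.1 0 = w.2.1.1 0
    · exact ⟨1, Or.inr rfl, Or.inr ⟨rfl, h⟩⟩
    · exact ⟨0, Or.inl rfl, Or.inl ⟨rfl, h⟩⟩
  obtain ⟨m, y, hy, y', hy', h1, h2, h3⟩ := special w.1.2 w.2.1.2 r e he
  refine ⟨(⟨y, hy⟩, ⟨y', hy'⟩, w.2.2), hr _ h1 h2 ?_, ?_⟩
  · simp only [sub_self, norm_zero]; positivity
  · rw [Set.mem_iUnion]
    refine ⟨m, fun n hn ⟨e1, e2⟩ => ?_⟩
    simp only at e1 e2
    have e3 := h3 (2 * n) (by omega)
    have f1 : y 0 = w.1.1 0 := h1 0 (by simp)
    have f2 : y' 0 = w.2.1.1 0 := h2 0 (by simp)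
    rcases he' with ⟨rfl, hne⟩ | ⟨rfl, heq⟩
    · rw [add_zero] at e3
      apply hne
      rw [← f1, ← f2, ← e1, ← e2, e3]
    · apply adj_Y hy (2 * n)
      rw [← e3, e1, e2, f1, f2, heq]

end TSide

open TSide in
theorem tside : ∃ (P : Type) (_ : TopologicalSpace P) (_ : CompactSpace P) (_ : T2Space P)
    (_ : TotallyDisconnectedSpace P) (_ : SecondCountableTopology P) (_ : Nonempty P)
    (T : P ≃ₜ P) (c : P → ℕ) (G : ℕ → Set P), Continuous c ∧
    (∀ U : Set P, IsOpen U → U.Nonempty → ∀ x, ∃ n : ℤ, (T ^ n) x ∈ U) ∧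
    Monotone G ∧
    (∀ N x, x ∈ G N → ∀ n > N, ¬ (c ((T ^ n) x) = c x ∧ c ((T ^ (2 * n)) x) = c x)) ∧
    Dense (⋃ N, G N) ∧
    (∀ N x, x ∈ G N → ∀ U, IsOpen U → x ∈ U → ∃ x' ∈ G N ∩ U, x' ≠ x) := by
  refine ⟨P, inferInstance, inferInstance, inferInstance, inferInstance, inferInstance,
    ⟨(⟨u, u_mem⟩, ⟨u, u_mem⟩, 0)⟩, T, col, G, continuous_col, minimal_T, ?_, ?_, G_dense, ?_⟩
  · intro M N hMN x hx n hn
    exact hx n (by omega)
  · rintro N x hx n hn ⟨e1, e2⟩
    rw [← zpow_natCast, T_zpow] at e1 e2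
    have f1 := (col_eq e1).2
    have f2 := (col_eq e2).1
    apply hx n hn
    simp only [Tz, zero_add] at f1 f2
    push_cast at f2
    exact ⟨f2, f1⟩
  · intro N x hx U hU hxU
    obtain ⟨r, hr⟩ := nbhd hU hxU
    refine ⟨(x.1, x.2.1, x.2.2 + 3^r), ⟨?_, ?_⟩, ?_⟩
    · intro n hn; exact hx n hn
    · apply hr
      · intro t _; rfl
      · intro t _; rfl
      · simp only [add_sub_cancel_left]
        rw [norm_pow]
        have : ‖(3 : ℤ_[3])‖ = 3⁻¹ := by
          have := PadicInt.norm_p (p := 3)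
          exact_mod_cast this
        rw [this, zpow_neg, zpow_natCast, inv_pow]
    · intro h
      have h2 := congrArg (fun x : P => x.2.2) h
      simp only [add_eq_left] at h2
      have : (3 : ℤ_[3]) ≠ 0 := by norm_num
      exact pow_ne_zero r this h2

end Rec3e
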